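import Mathlib

set_option autoImplicit false

namespace Pool.Agent.Q212.NR

open Cardinal Set

/-- the well-ordered set `ω₁` -/
abbrev Om1 : Type := (ℵ₁ : Cardinal.{0}).ord.ToType

/-- `S` is closed under `f` -/
def ClosedUnder {T : Type} (f : List T → T) (S : Set T) : Prop :=
  ∀ l : List T, (∀ a ∈ l, a ∈ S) → f l ∈ S

/-- The set of the countable members of `𝒮` which are subsets of `I` is stationary in the set of
the countable subsets of `I`: for every function `f` from the finite sequences of points of `I` to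
`I`, some countable `S ∈ 𝒮`, `S ⊆ I`, is closed under `f`. -/
def StationaryIn {T : Type} (𝒮 : Set (Set T)) (I : Set T) : Prop :=
  ∀ f : List T → T, ClosedUnder f I → ∃ S ∈ 𝒮, S ⊆ I ∧ S.Countable ∧ ClosedUnder f S

/-- **Fleissner's Axiom R**: for every stationary set `𝒮` of countable subsets of `T` and every
cofinal family `𝒯` of subsets of `T` of size `ℵ₁` closed under the unions of increasing sequences of
length `ω₁`, there is `I ∈ 𝒯` such that `𝒮` is stationary in the countable subsets of `I`. -/
def AxiomR : Prop :=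
  ∀ (T : Type) (𝒮 𝒯 : Set (Set T)), StationaryIn 𝒮 univ →
    (∀ I ∈ 𝒯, #I = ℵ₁) → (∀ J : Set T, #J ≤ ℵ₁ → ∃ I ∈ 𝒯, J ⊆ I) →
    (∀ C : Om1 → Set T, Monotone C → (∀ a, C a ∈ 𝒯) → (⋃ a, C a) ∈ 𝒯) →
    ∃ I ∈ 𝒯, StationaryIn 𝒮 I

section closure

variable {T : Type} (f : List T → T)

/-- the stages of the closing off -/
def stage (A : Set T) : ℕ → Set T
  | 0 => A
  | n + 1 => stage A n ∪ f '' {l | ∀ a ∈ l, a ∈ stage A n}

/-- the closure under `f` -/
def cl (A : Set T) : Set T := ⋃ n, stage f A n

theorem stage_mono (A : Set T) : Monotone (stage f A) :=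
  monotone_nat_of_le_succ fun _ => subset_union_left

theorem subset_cl (A : Set T) : A ⊆ cl f A := subset_iUnion (stage f A) 0

theorem closed_cl (A : Set T) : ClosedUnder f (cl f A) := by
  intro l hl
  have h1 : ∃ n, ∀ a ∈ l, a ∈ stage f A n := by
    induction l with
    | nil => exact ⟨0, by simp⟩
    | cons b l ih =>
      obtain ⟨n, hn⟩ := ih fun a ha => hl a (List.mem_cons_of_mem _ ha)
      obtain ⟨m, hm⟩ := mem_iUnion.1 (hl b (List.mem_cons_self ..))
      refine ⟨max n m, fun a ha => ?_⟩
      rcases List.mem_cons.1 ha with rfl | ha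
      · exact stage_mono f A (le_max_right _ _) hm
      · exact stage_mono f A (le_max_left _ _) (hn a ha)
  obtain ⟨n, hn⟩ := h1
  exact mem_iUnion.2 ⟨n + 1, Or.inr ⟨l, hn, rfl⟩⟩

theorem cl_subset {A S : Set T} (hS : ClosedUnder f S) (hA : A ⊆ S) : cl f A ⊆ S := by
  refine iUnion_subset fun n => ?_
  induction n with
  | zero => exact hA
  | succ n ih =>
    rintro x (hx | ⟨l, hl, rfl⟩)
    · exact ih hx
    · exact hS l fun a ha => ih (hl a ha)

theorem mk_lists (B : Set T) : #{l : List T | ∀ a ∈ l, a ∈ B} ≤ max #B ℵ₀ := by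
  have h1 : {l : List T | ∀ a ∈ l, a ∈ B} ⊆ range fun l : List B => l.map Subtype.val := by
    intro l hl
    refine ⟨l.attach.map fun a => ⟨a.1, hl a.1 a.2⟩, ?_⟩
    simp [List.map_map, Function.comp_def]
  exact (Cardinal.mk_le_mk_of_subset h1).trans
    (Cardinal.mk_range_le.trans (Cardinal.mk_list_le_max B |>.trans (by rw [max_comm])))

theorem mk_cl (A : Set T) : #(cl f A) ≤ max #A ℵ₀ := by
  have h0 : ∀ n, #(stage f A n) ≤ max #A ℵ₀ := by
    intro n
    induction n with
    | zero => exact le_max_left _ _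
    | succ n ih =>
      refine (Cardinal.mk_union_le _ _).trans (Cardinal.add_le_of_le (le_max_right _ _) ih ?_)
      exact Cardinal.mk_image_le.trans ((mk_lists _).trans (max_le ih (le_max_right _ _)))
  refine (Cardinal.mk_iUnion_le _).trans ?_
  calc #ℕ * (⨆ n, #(stage f A n)) ≤ max #A ℵ₀ * max #A ℵ₀ := by
        refine mul_le_mul' (by simp) (ciSup_le' h0)
    _ = max #A ℵ₀ := Cardinal.mul_eq_self (le_max_right _ _)

theorem countable_cl {A : Set T} (hA : A.Countable) : (cl f A).Countable := by
  rw [← Cardinal.le_aleph0_iff_set_countable]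
  exact (mk_cl f A).trans (max_le (Cardinal.le_aleph0_iff_set_countable.2 hA) le_rfl)

/-- from countable-valued to single-valued operations -/
theorem exists_single {I : Set T} (hne : I.Nonempty) (Q : List T → Set T)
    (hQ : ∀ l, (∀ a ∈ l, a ∈ I) → (Q l).Countable ∧ Q l ⊆ I) :
    ∃ f : List T → T, ClosedUnder f I ∧ ∀ S ⊆ I, ClosedUnder f S →
      ∀ l, (∀ a ∈ l, a ∈ S) → Q l ⊆ S := by
  classical
  obtain ⟨a0, ha0⟩ := hne
  have h1 : ∀ l : List T, ∃ e : ℕ → T, (∀ a ∈ l, a ∈ I) → (∀ n, e n ∈ I) ∧ Q l ⊆ range e := by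
    intro l
    by_cases hl : ∀ a ∈ l, a ∈ I
    · have h2 : (Q l ∪ {a0}).Countable := (hQ l hl).1.union (countable_singleton _)
      obtain ⟨e, he⟩ := h2.exists_eq_range ⟨a0, Or.inr rfl⟩
      refine ⟨e, fun _ => ⟨fun n => ?_, ?_⟩⟩
      · have h3 : e n ∈ Q l ∪ {a0} := he ▸ mem_range_self n
        rcases h3 with h3 | h3
        · exact (hQ l hl).2 h3
        · rw [mem_singleton_iff.1 h3]
          exact ha0
      · rw [← he]
        exact subset_union_left
    · exact ⟨fun _ => a0, fun h => absurd h hl⟩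
  choose e he using h1
  refine ⟨fun l => e (l.take (Nat.unpair l.length).2) (Nat.unpair l.length).1, ?_, ?_⟩
  · intro l hl
    exact (he _ fun a ha => hl a (List.mem_of_mem_take ha)).1 _
  · intro S hSI hS l hl x hx
    have hS0 : e [] (Nat.unpair 0).1 ∈ S := by
      have := hS [] (by simp)
      simpa using this
    obtain ⟨n, hn⟩ := (he l fun a ha => hSI (hl a ha)).2 hx
    let p := Nat.pair n l.length
    have hp : l.length ≤ p := Nat.right_le_pair _ _
    let l' := l ++ List.replicate (p - l.length) (e [] (Nat.unpair 0).1)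
    have hlen : l'.length = p := by
      simp only [l', List.length_append, List.length_replicate]
      omega
    have h3 := hS l' (by
      intro a ha
      rcases List.mem_append.1 ha with ha | ha
      · exact hl a ha
      · rw [(List.mem_replicate.1 ha).2]
        exact hS0)
    have h4 : l'.take (Nat.unpair l'.length).2 = l := by
      rw [hlen]
      simp [p, l']
    have h5 : (Nat.unpair l'.length).1 = n := by
      rw [hlen]
      simp [p]
    simp only [h4, h5] at h3
    rw [← hn]
    exact h3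

end closure

end Pool.Agent.Q212.NR
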