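import Mathlib
import Pool.Agent.Helper332.NRS.Defs

set_option autoImplicit false

namespace Pool.Agent.Q212.NR

open Cardinal Set Filter Topology
open Pool.Agent.Helper332.NRS (IsLim CofOmega ClubBelow Club)

/-- A nonreflecting stationary set of points of cofinality `ω` in a well-ordered set `K` in which
all initial segments have at most continuum many points and all subsets of at most continuum many
points are bounded (so `K` is the successor cardinal of the continuum). -/
structure NRSys (K : Type) [LinearOrder K] (E : Set K) : Prop where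
  wf : WellFoundedLT K
  small : ∀ a : K, #(Set.Iio a) ≤ 𝔠
  bdd : ∀ S : Set K, #S ≤ 𝔠 → ∃ a : K, ∀ b ∈ S, b < a
  cof : ∀ a ∈ E, CofOmega a
  nonrefl : ∀ a : K, IsLim a → ∃ C : Set K, ClubBelow a C ∧ ∀ c ∈ C, c < a → c ∉ E
  stat : ∀ C : Set K, Club C → ∃ a ∈ E, a ∈ C

variable {K : Type} [LinearOrder K] {E : Set K}

/-- a strictly increasing cofinal sequence -/
theorem exists_ladder {a : K} (h : CofOmega a) :
    ∃ t : ℕ → K, StrictMono t ∧ (∀ n, t n < a) ∧ ∀ b < a, ∃ n, b < t n := by
  obtain ⟨s, hs1, hs2⟩ := h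
  have hstep : ∀ (x : {x : K // x < a}) (n : ℕ), ∃ y : {y : K // y < a}, x.1 < y.1 ∧ s n < y.1 := by
    intro x n
    obtain ⟨m, hm⟩ := hs2 (max x.1 (s n)) (max_lt x.2 (hs1 n))
    exact ⟨⟨s m, hs1 m⟩, (le_max_left _ _).trans_lt hm, (le_max_right _ _).trans_lt hm⟩
  choose f hf1 hf2 using hstep
  let t : ℕ → {x : K // x < a} := fun n => Nat.rec ⟨s 0, hs1 0⟩ (fun k x => f x k) n
  have ht : ∀ n, t (n + 1) = f (t n) n := fun n => rfl
  refine ⟨fun n => (t n).1, strictMono_nat_of_lt_succ fun n => ?_, fun n => (t n).2, ?_⟩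
  · rw [ht]; exact hf1 _ _
  · intro b hb
    obtain ⟨n, hn⟩ := hs2 b hb
    exact ⟨n + 1, by show b < (t (n + 1)).1; rw [ht]; exact hn.trans (hf2 _ _)⟩

/-- a ladder system on `E` -/
structure Ladder (E : Set K) (t : K → ℕ → K) : Prop where
  mono : ∀ a ∈ E, StrictMono (t a)
  lt : ∀ a ∈ E, ∀ n, t a n < a
  cof : ∀ a ∈ E, ∀ b < a, ∃ n, b < t a n

theorem NRSys.exists_ladder (h : NRSys K E) : ∃ t : K → ℕ → K, Ladder E t := by
  classical
  have h1 : ∀ a : K, ∃ t : ℕ → K, a ∈ E → StrictMono t ∧ (∀ n, t n < a) ∧ ∀ b < a, ∃ n, b < t n := by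
    intro a
    by_cases ha : a ∈ E
    · obtain ⟨t, ht⟩ := Pool.Agent.Q212.NR.exists_ladder (h.cof a ha)
      exact ⟨t, fun _ => ht⟩
    · exact ⟨fun _ => a, fun h => absurd h ha⟩
  choose t ht using h1
  exact ⟨t, fun a ha => (ht a ha).1, fun a ha => (ht a ha).2.1, fun a ha => (ht a ha).2.2⟩

/-- eventually above -/
theorem Ladder.above {t : K → ℕ → K} (ht : Ladder E t) {a b : K} (ha : a ∈ E) (hb : b < a) :
    ∃ m, ∀ n ≥ m, b < t a n := by
  obtain ⟨m, hm⟩ := ht.cof a ha b hb
  exact ⟨m, fun n hn => hm.trans_le ((ht.mono a ha).monotone hn)⟩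

/-- the tails of the ladders below `d` starting at `m` are disjoint -/
def Dis (E : Set K) (t : K → ℕ → K) (d : K) (m : K → ℕ) : Prop :=
  ∀ a ∈ E, a < d → ∀ b ∈ E, b < d → a ≠ b → ∀ i ≥ m a, ∀ j ≥ m b, t a i ≠ t b j

theorem exists_dis (h : NRSys K E) {t : K → ℕ → K} (ht : Ladder E t) :
    ∀ d : K, ∃ m : K → ℕ, Dis E t d m := by
  classical
  have := h.wf
  intro d
  induction d using WellFoundedLT.induction with
  | ind d ih =>
  choose! M hM using ih
  by_cases hlim : IsLim d
  · obtain ⟨C, ⟨hC1, hC2⟩, hC3⟩ := h.nonrefl d hlim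
    -- the next element of `C`
    have hnext : ∀ a : K, ∃ u, a < d → (u ∈ C ∧ a < u ∧ u < d ∧ ∀ c ∈ C, a < c → u ≤ c) := by
      intro a
      by_cases had : a < d
      · obtain ⟨c, hc, h1, h2⟩ := hC1 a had
        let S : Set K := {c | c ∈ C ∧ a < c}
        have hS : S.Nonempty := ⟨c, hc, h1⟩
        refine ⟨(wellFounded_lt (α := K)).min S hS, fun _ => ?_⟩
        have h3 := (wellFounded_lt (α := K)).min_mem S hS
        refine ⟨h3.1, h3.2, ?_, fun c' hc' hac' => ?_⟩
        · exact (not_lt.1 ((wellFounded_lt (α := K)).not_lt_min S (x := c) ⟨hc, h1⟩)).trans_lt h2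
        · exact not_lt.1 ((wellFounded_lt (α := K)).not_lt_min S (x := c') ⟨hc', hac'⟩)
      · exact ⟨a, fun h => absurd h had⟩
    choose u hu using hnext
    -- a gap of `C` below a point of `E`
    have hgap : ∀ a : K, ∃ x, (a ∈ E ∧ a < d) → (x < a ∧ ∀ c ∈ C, c < a → c ≤ x) := by
      intro a
      by_cases ha : a ∈ E ∧ a < d
      · have h1 : ∃ x, x < a := ⟨t a 0, ht.lt a ha.1 0⟩
        have h2 : a ∉ C := fun h => hC3 a h ha.2 ha.1
        have h3 : ¬ ∀ x < a, ∃ c ∈ C, x < c ∧ c < a := fun h => h2 (hC2 a ha.2 h1 h)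
        push Not at h3
        obtain ⟨x, hx, h4⟩ := h3
        refine ⟨x, fun _ => ⟨hx, fun c hc hca => ?_⟩⟩
        by_contra hlt
        exact absurd hca (not_lt.2 (h4 c hc (not_le.1 hlt)))
      · exact ⟨a, fun h => absurd h ha⟩
    choose x hx using hgap
    have habove : ∀ a : K, ∃ m, (a ∈ E ∧ a < d) → ∀ n ≥ m, x a < t a n := by
      intro a
      by_cases ha : a ∈ E ∧ a < d
      · obtain ⟨m, hm⟩ := ht.above ha.1 (hx a ha).1
        exact ⟨m, fun _ => hm⟩
      · exact ⟨0, fun h => absurd h ha⟩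
    choose k hk using habove
    refine ⟨fun a => max (M (u a) a) (k a), ?_⟩
    -- the main step, for `a < b`
    have main : ∀ a ∈ E, a < d → ∀ b ∈ E, b < d → a < b →
        ∀ i ≥ max (M (u a) a) (k a), ∀ j ≥ max (M (u b) b) (k b), t a i ≠ t b j := by
      intro a ha had b hb hbd hab i hi j hj
      obtain ⟨h1, h2, h3, h4⟩ := hu a had
      obtain ⟨g1, g2, g3, g4⟩ := hu b hbd
      by_cases hub : u a < b
      · have h5 : u a ≤ x b := (hx b ⟨hb, hbd⟩).2 _ h1 hub
        have h6 : x b < t b j := hk b ⟨hb, hbd⟩ j ((le_max_right _ _).trans hj)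
        have h7 : t a i < a := ht.lt a ha i
        exact ne_of_lt (h7.trans (h2.trans_le (h5.trans h6.le)))
      · have hne : u a ≠ b := fun heq => hC3 b (heq ▸ h1) hbd hb
        have hbu : b < u a := lt_of_le_of_ne (not_lt.1 hub) hne.symm
        have heq : u a = u b := le_antisymm (h4 _ g1 (hab.trans g2)) (g4 _ h1 hbu)
        have h5 := hM (u a) h3
        refine h5 a ha h2 b hb hbu hab.ne i ((le_max_left _ _).trans hi) j ?_
        rw [heq]
        exact (le_max_left _ _).trans hj
    intro a ha had b hb hbd hne i hi j hj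
    rcases lt_or_gt_of_ne hne with h1 | h1
    · exact main a ha had b hb hbd h1 i hi j hj
    · exact (main b hb hbd a ha had h1 j hj i hi).symm
  · by_cases hbot : ∃ b, b < d
    · have h1 : ∃ c < d, ∀ b < d, b ≤ c := by
        unfold IsLim at hlim
        push Not at hlim
        obtain ⟨c, hc, h2⟩ := hlim hbot
        refine ⟨c, hc, fun b hb => ?_⟩
        by_contra hlt
        exact absurd hb (not_lt.2 (h2 b (not_le.1 hlt)))
      obtain ⟨c, hc, hmax⟩ := h1
      have hMc := hM c hc
      by_cases hcE : c ∈ E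
      · -- index above the last point of the ladder of `c` below `a`
        have h2 : ∀ a : K, ∃ m, (a ∈ E ∧ a < c) → ∀ n ≥ m, ∀ j, t a n ≠ t c j := by
          intro a
          by_cases ha : a ∈ E ∧ a < c
          · obtain ⟨n0, hn0⟩ := ht.above hcE ha.2
            -- only the indices below `n0` matter
            have h3 : ∀ j : ℕ, ∃ m, ∀ n ≥ m, t a n ≠ t c j := by
              intro j
              by_cases hj : t c j < a
              · obtain ⟨m, hm⟩ := ht.above ha.1 hj
                exact ⟨m, fun n hn => (hm n hn).ne'⟩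
              · exact ⟨0, fun n _ h => hj (h ▸ ht.lt a ha.1 n)⟩
            choose m hm using h3
            refine ⟨(Finset.range n0).sup m, fun _ n hn j => ?_⟩
            by_cases hj : j < n0
            · exact hm j n ((Finset.le_sup (f := m) (Finset.mem_range.2 hj)).trans hn)
            · exact ((ht.lt a ha.1 n).trans (hn0 j (not_lt.1 hj))).ne
          · exact ⟨0, fun h => absurd h ha⟩
        choose k hk using h2
        refine ⟨fun a => max (M c a) (k a), ?_⟩
        intro a ha had b hb hbd hne i hi j hj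
        rcases lt_or_eq_of_le (hmax a had) with h3 | h3
        · rcases lt_or_eq_of_le (hmax b hbd) with h4 | h4
          · exact hMc a ha h3 b hb h4 hne i ((le_max_left _ _).trans hi) j
              ((le_max_left _ _).trans hj)
          · subst h4
            exact hk a ⟨ha, h3⟩ i ((le_max_right _ _).trans hi) j
        · subst h3
          rcases lt_or_eq_of_le (hmax b hbd) with h4 | h4
          · exact (hk b ⟨hb, h4⟩ j ((le_max_right _ _).trans hj) i).symm
          · exact absurd h4.symm hne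
      · refine ⟨M c, ?_⟩
        intro a ha had b hb hbd hne
        have h3 : a < c := lt_of_le_of_ne (hmax a had) fun h => hcE (h ▸ ha)
        have h4 : b < c := lt_of_le_of_ne (hmax b hbd) fun h => hcE (h ▸ hb)
        exact hMc a ha h3 b hb h4 hne
    · refine ⟨fun _ => 0, fun a _ had => absurd ⟨a, had⟩ hbot⟩

/-- regressive functions on `E` have an uncountable fibre -/
theorem exists_fibre (h : NRSys K E) (f : K → K) (hf : ∀ a ∈ E, f a < a) :
    ∃ x, ¬ {a | a ∈ E ∧ f a = x}.Countable := by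
  classical
  have := h.wf
  by_contra hcon
  push Not at hcon
  have h1 : ∀ x, ∃ g, ∀ a ∈ {a | a ∈ E ∧ f a = x}, a < g := fun x =>
    h.bdd _ ((Cardinal.mk_le_aleph0_iff.2 (hcon x).to_subtype).trans Cardinal.aleph0_le_continuum)
  choose g hg using h1
  -- bounds of `g` on initial segments
  have h2 : ∀ b : K, ∃ c, b < c ∧ ∀ x < b, g x < c := by
    intro b
    obtain ⟨c, hc⟩ := h.bdd (insert b (g '' Set.Iio b)) (by
      refine (Cardinal.mk_insert_le).trans ?_
      calc #(g '' Set.Iio b) + 1 ≤ 𝔠 + 1 := by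
            gcongr
            exact Cardinal.mk_image_le.trans (h.small b)
        _ = 𝔠 := Cardinal.add_one_eq Cardinal.aleph0_le_continuum)
    exact ⟨c, hc b (Set.mem_insert _ _), fun x hx => hc _ (Set.mem_insert_of_mem _ ⟨x, hx, rfl⟩)⟩
  choose G hG1 hG2 using h2
  let C : Set K := {a | (∃ x, x < a) ∧ ∀ x < a, ∃ b, x < b ∧ b < a ∧ G b ≤ a}
  have hC : Club C := by
    constructor
    · intro b
      let s : ℕ → K := fun n => Nat.rec (G b) (fun _ x => G x) n
      have hs : ∀ n, s (n + 1) = G (s n) := fun n => rfl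
      have hmono : StrictMono s := strictMono_nat_of_lt_succ fun n => by rw [hs]; exact hG1 _
      have hne : {c | ∀ n, s n < c}.Nonempty := by
        obtain ⟨c, hc⟩ := h.bdd (Set.range s)
          ((Cardinal.mk_le_aleph0_iff.2 (Set.countable_range s).to_subtype).trans
            Cardinal.aleph0_le_continuum)
        exact ⟨c, fun n => hc _ ⟨n, rfl⟩⟩
      let a := (wellFounded_lt (α := K)).min _ hne
      have ha : ∀ n, s n < a := (wellFounded_lt (α := K)).min_mem _ hne
      have ha2 : ∀ x < a, ∃ n, x ≤ s n := by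
        intro x hx
        by_contra hcon2
        push Not at hcon2
        exact (wellFounded_lt (α := K)).not_lt_min {c | ∀ n, s n < c} (x := x) hcon2 hx
      refine ⟨a, ⟨⟨s 0, ha 0⟩, fun x hx => ?_⟩, (hG1 b).trans (ha 0)⟩
      obtain ⟨n, hn⟩ := ha2 x hx
      refine ⟨s (n + 1), hn.trans_lt (hmono (Nat.lt_succ_self n)), ha (n + 1), ?_⟩
      exact (hs (n + 1)) ▸ (ha (n + 1 + 1)).le
    · intro b hb hlim
      refine ⟨hb, fun x hx => ?_⟩
      obtain ⟨c, hc, h3, h4⟩ := hlim x hx
      obtain ⟨b', h5, h6, h7⟩ := hc.2 x h3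
      exact ⟨b', h5, h6.trans h4, h7.trans h4.le⟩
  obtain ⟨a, haE, ha⟩ := h.stat C hC
  obtain ⟨b, h3, h4, h5⟩ := ha.2 (f a) (hf a haE)
  have h6 : a < g (f a) := hg _ a ⟨haE, rfl⟩
  have h7 : g (f a) < G b := hG2 b _ h3
  exact absurd (h6.trans (h7.trans_le h5)) (lt_irrefl _)

end Pool.Agent.Q212.NR
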