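import Mathlib
import Pool.Agent.Helper332.NRS.P_exists_bound
import Pool.Agent.Helper332.NRS.P_mk_Iio_le
import Pool.Agent.Helper292.ForceCH

set_option autoImplicit false

namespace Pool.Agent.Q212.NR

open Cardinal Set
open Pool.Agent.Helper332.NRS
open Pool.Agent.Helper292.ForceCH (fnot fand fall fimp fex fground meets IsFun mem_fex mem_fimp
  down_meets down_fand down_fall down_fex meets_of_dense Down)

universe u

section

variable (P : Type u) [Preorder P]

/-- In the extension every function from the set of the ground model functions `ℕ → Bool` to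
`Kc` is a function of the ground model. (So there are no new functions `ℕ → Bool`, and `Kc` is
still the successor of the continuum.) -/
def NoNewFun : Set P :=
  fall fun F : (ℕ → Bool) → Kc → Set P => fimp (IsFun F)
    (fex fun f : (ℕ → Bool) → Kc => fall fun x => meets (F x (f x)))

variable {P}

/-- The set named by `C` is closed and unbounded in `Kc`. -/
def IsClubK (C : Kc → Set P) : Set P :=
  fand (fall fun a => fex fun b => fand (fground (a < b)) (meets (C b)))
    (fall fun a => fimp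
      (fand (fground (∃ b, b < a))
        (fall fun b => fall fun _ : b < a => fex fun c => fand (fground (b < c ∧ c < a))
          (meets (C c))))
      (meets (C a)))

variable (P)

/-- In the extension there is a set `E` of points of `Kc` of cofinality `ω` (witnessed by a
sequence of the ground model) which is disjoint, below every limit point `a`, from a closed
unbounded subset of `a` (lying in the ground model), and which meets every closed unbounded
subset of `Kc`. -/
def NonreflectingForced : Set P :=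
  fex fun E : Kc → Set P =>
    fand (fall fun a : Kc => fimp (meets (E a)) (fground (CofOmega a)))
    (fand (fall fun a : Kc => fimp (fground (IsLim a)) (fex fun C : Set Kc =>
        fand (fground (ClubBelow a C))
          (fall fun c : Kc => fimp (fground (c ∈ C ∧ c < a)) (fnot (meets (E c))))))
      (fall fun C : Kc → Set P => fimp (IsClubK C)
        (fex fun a : Kc => fand (meets (E a)) (meets (C a)))))

end

/-- the least strict upper bound -/
theorem exists_lub (S : Set Kc) (hS : #S ≤ 𝔠) :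
    ∃ a : Kc, (∀ b ∈ S, b < a) ∧ ∀ c < a, ∃ b ∈ S, c ≤ b := by
  have hwf := wellFounded_lt (α := Kc)
  let T : Set Kc := {a | ∀ b ∈ S, b < a}
  have hT : T.Nonempty := exists_bound S hS
  refine ⟨hwf.min T hT, hwf.min_mem T hT, fun c hc => ?_⟩
  by_contra hcon
  push Not at hcon
  exact hwf.not_lt_min T (x := c) hcon hc

/-- the pairs -/
def G : Type := {x : Cond × Set Kc // Good x.1 x.2}

instance : Preorder G where
  le x y := Ext x.1 y.1
  le_refl _ := ⟨le_rfl, fun _ _ => Iff.rfl⟩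
  le_trans _ _ _ h h' := ⟨h.1.trans h'.1, fun a ha => (h.2 a (ha.trans h'.1.1)).trans (h'.2 a ha)⟩

theorem chain_lower (I : Type) (hI : #I ≤ 𝔠) (s : I → G)
    (hs : ∀ i j, s i ≤ s j ∨ s j ≤ s i) : ∃ q : G, ∀ i, q ≤ s i := by
  obtain ⟨d, hd1, hd2⟩ := exists_lub (range fun i => (s i).1.1.d) (Cardinal.mk_range_le.trans hI)
  have hd1' : ∀ i, (s i).1.1.d < d := fun i => hd1 _ ⟨i, rfl⟩
  have hd2' : ∀ c < d, ∃ i, c ≤ (s i).1.1.d := by
    intro c hc
    obtain ⟨_, ⟨i, rfl⟩, hi⟩ := hd2 c hc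
    exact ⟨i, hi⟩
  have hE : ∀ i, ∀ a < (s i).1.1.d, (∃ j, a ∈ (s j).1.1.E) ↔ a ∈ (s i).1.1.E := by
    intro i a ha
    refine ⟨?_, fun h => ⟨i, h⟩⟩
    rintro ⟨j, hj⟩
    rcases hs i j with h | h
    · exact (h.1.2 a ((s j).1.1.lt a hj)).2 hj
    · exact (h.1.2 a ha).1 hj
  have hD : ∀ i, ∀ a ≤ (s i).1.1.d, (∃ j, a ∈ (s j).1.2) ↔ a ∈ (s i).1.2 := by
    intro i a ha
    refine ⟨?_, fun h => ⟨i, h⟩⟩
    rintro ⟨j, hj⟩
    rcases hs i j with h | h
    · exact (h.2 a ((s j).2.1 a hj)).2 hj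
    · exact (h.2 a ha).1 hj
  have hDE : ∀ a, (∃ j, a ∈ (s j).1.2) → ¬ ∃ j, a ∈ (s j).1.1.E := by
    rintro a hi ⟨j, hj⟩
    exact (s j).2.2.2.2 a ((hD j a ((s j).1.1.lt a hj).le).1 hi) hj
  let q : Cond :=
    { d := d
      E := {a | ∃ j, a ∈ (s j).1.1.E}
      lt := by
        rintro a ⟨j, hj⟩
        exact ((s j).1.1.lt a hj).trans (hd1' j)
      cof := by
        rintro a ⟨j, hj⟩
        exact (s j).1.1.cof a hj
      nr := by
        intro a ha hlim
        rcases ha.lt_or_eq with h | h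
        · obtain ⟨i, hi⟩ := hd2' a h
          obtain ⟨C, hC1, hC2⟩ := (s i).1.1.nr a hi hlim
          exact ⟨C, hC1, fun c hc hca h' => hC2 c hc hca ((hE i c (hca.trans_le hi)).1 h')⟩
        · refine ⟨{c | ∃ j, c ∈ (s j).1.2}, ⟨?_, ?_⟩, fun c hc _ => hDE c hc⟩
          · intro b hb
            obtain ⟨c, hbc, hca⟩ := hlim.2 b hb
            obtain ⟨i, hi⟩ := hd2' c (hca.trans_eq h)
            exact ⟨_, ⟨i, (s i).2.2.1⟩, hbc.trans_le hi, (hd1' i).trans_eq h.symm⟩
          · intro b hb hx hcl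
            obtain ⟨i, hi⟩ := hd2' b (hb.trans_eq h)
            refine ⟨i, (s i).2.2.2.1 b hx ?_ hi⟩
            intro x hxb
            obtain ⟨c, hc, h1, h2⟩ := hcl x hxb
            exact ⟨c, (hD i c (h2.le.trans hi)).1 hc, h1, h2⟩ }
  have hgood : Good q {c | c = d ∨ ∃ j, c ∈ (s j).1.2} := by
    refine ⟨?_, Or.inl rfl, ?_, ?_⟩
    · rintro a (rfl | ⟨j, hj⟩)
      · exact le_rfl
      · exact (((s j).2.1 a hj).trans_lt (hd1' j)).le
    · intro b hx hcl hb
      rcases hb.lt_or_eq with h | h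
      · right
        obtain ⟨i, hi⟩ := hd2' b h
        refine ⟨i, (s i).2.2.2.1 b hx ?_ hi⟩
        intro x hxb
        obtain ⟨c, hc, h1, h2⟩ := hcl x hxb
        rcases hc with rfl | hc
        · exact absurd (h2.trans h) (lt_irrefl _)
        · exact ⟨c, (hD i c (h2.le.trans hi)).1 hc, h1, h2⟩
      · exact Or.inl h
    · rintro a (rfl | ha) h
      · exact absurd (q.lt _ h) (lt_irrefl _)
      · exact hDE a ha h
  refine ⟨⟨(q, {c | c = d ∨ ∃ j, c ∈ (s j).1.2}), hgood⟩, fun i => ⟨⟨(hd1' i).le, hE i⟩, ?_⟩⟩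
  intro a ha
  constructor
  · rintro (rfl | h)
    · exact absurd (hd1' i) (not_lt.2 ha)
    · exact (hD i a ha).1 h
  · intro h
    exact Or.inr ⟨i, h⟩

theorem card_option {I : Type} (hI : #I ≤ 𝔠) : #(Option I) ≤ 𝔠 := by
  rw [Cardinal.mk_option]
  calc #I + 1 ≤ 𝔠 + 1 := by gcongr
    _ = 𝔠 := Cardinal.add_one_eq Cardinal.aleph0_le_continuum

/-- meeting continuum many dense sets -/
theorem meet_all {Q : Type} [Preorder Q]
    (hQ : ∀ (I : Type) (_ : #I ≤ 𝔠) (s : I → Q), (∀ i j, s i ≤ s j ∨ s j ≤ s i) →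
      ∃ q, ∀ i, q ≤ s i)
    {ι : Type} (hι : #ι ≤ 𝔠) (D : ι → Set Q) (hD : ∀ i, ∀ q ∈ D i, ∀ r ≤ q, r ∈ D i) (q0 : Q)
    (hd : ∀ i, ∀ q ≤ q0, ∃ r ≤ q, r ∈ D i) : ∃ q ≤ q0, ∀ i, q ∈ D i := by
  classical
  have hwo : IsWellOrder ι WellOrderingRel := WellOrderingRel.isWellOrder
  have hwf : WellFounded (WellOrderingRel (α := ι)) := hwo.toIsWellFounded.wf
  let step : (i : ι) → ((j : ι) → WellOrderingRel j i → Q) → Q := fun i F =>
    if h : ∃ x, x ∈ D i ∧ x ≤ q0 ∧ ∀ j (hj : WellOrderingRel j i), x ≤ F j hj then h.choose else q0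
  let F : ι → Q := hwf.fix step
  have hF : ∀ i, F i = step i fun j _ => F j := fun i => hwf.fix_eq step i
  have key : ∀ i, F i ∈ D i ∧ F i ≤ q0 ∧ ∀ j, WellOrderingRel j i → F i ≤ F j := by
    intro i
    refine hwf.induction (C := fun i => F i ∈ D i ∧ F i ≤ q0 ∧
      ∀ j, WellOrderingRel j i → F i ≤ F j) i ?_
    intro i ih
    have hex : ∃ x, x ∈ D i ∧ x ≤ q0 ∧ ∀ j (_ : WellOrderingRel j i), x ≤ F j := by
      obtain ⟨y, hy⟩ := hQ (Option {j // WellOrderingRel j i})
        (card_option ((Cardinal.mk_subtype_le _).trans hι))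
        (fun o => o.elim q0 fun j => F j.1) (by
          rintro (_ | j) (_ | k)
          · exact Or.inl le_rfl
          · exact Or.inr (ih k.1 k.2).2.1
          · exact Or.inl (ih j.1 j.2).2.1
          · rcases trichotomous_of (WellOrderingRel (α := ι)) j.1 k.1 with h | h | h
            · exact Or.inr ((ih k.1 k.2).2.2 _ h)
            · exact Or.inl (by simp only [Option.elim]; rw [h])
            · exact Or.inl ((ih j.1 j.2).2.2 _ h))
      obtain ⟨x, hxy, hx⟩ := hd i y (hy none)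
      exact ⟨x, hx, hxy.trans (hy none), fun j hj => hxy.trans (hy (some ⟨j, hj⟩))⟩
    rw [hF i]
    have h1 : step i (fun j _ => F j) = hex.choose := dif_pos hex
    rw [h1]
    exact hex.choose_spec
  obtain ⟨y, hy⟩ := hQ (Option ι) (card_option hι) (fun o => o.elim q0 F) (by
    rintro (_ | j) (_ | k)
    · exact Or.inl le_rfl
    · exact Or.inr (key k).2.1
    · exact Or.inl (key j).2.1
    · rcases trichotomous_of (WellOrderingRel (α := ι)) j k with h | h | h
      · exact Or.inr ((key k).2.2 _ h)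
      · exact Or.inl (by simp only [Option.elim]; rw [h])
      · exact Or.inl ((key j).2.2 _ h))
  exact ⟨y, hy none, fun i => hD i _ (key i).1 _ (hy (some i))⟩

/-- longer conditions -/
theorem extend (p : Cond) (b : Kc) (hb : p.d ≤ b) : ∃ q ≤ p, q.d = b ∧ q.E = p.E := by
  refine ⟨⟨b, p.E, fun a ha => (p.lt a ha).trans_le hb, p.cof, ?_⟩, ⟨hb, fun _ _ => Iff.rfl⟩,
    rfl, rfl⟩
  intro a _ hlim
  rcases le_or_gt a p.d with h | h
  · exact p.nr a h hlim
  · refine ⟨{c | p.d < c}, ⟨?_, ?_⟩, ?_⟩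
    · intro x hx
      obtain ⟨c, h1, h2⟩ := hlim.2 (max x p.d) (max_lt hx h)
      exact ⟨c, (le_max_right _ _).trans_lt h1, (le_max_left _ _).trans_lt h1, h2⟩
    · rintro y _ ⟨x, hx⟩ hcl
      obtain ⟨c, hc, _, h2⟩ := hcl x hx
      exact lt_trans hc h2
    · intro c hc _ h2
      exact absurd (p.lt c h2) (not_lt.2 (le_of_lt hc))

theorem exists_gt_Kc (a : Kc) : ∃ b, a < b := by
  obtain ⟨b, hb⟩ := exists_bound {a} (by
    rw [Cardinal.mk_singleton]
    exact Cardinal.one_le_aleph0.trans aleph0_le_continuum)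
  exact ⟨b, hb a rfl⟩

/-- one step of the construction of pairs -/
theorem pair_step (y : G) (φ : Set Cond) (h : ∀ q ≤ y.1.1, ∃ r ≤ q, r ∈ φ) :
    ∃ z : G, z ≤ y ∧ z.1.1 ∈ φ := by
  obtain ⟨b, hb⟩ := exists_gt_Kc y.1.1.d
  obtain ⟨p, hp, hpd, hpE⟩ := extend y.1.1 b hb.le
  obtain ⟨r, hr, hrφ⟩ := h p hp
  have hrd : y.1.1.d < r.d := by
    have h1 : p.d ≤ r.d := hr.1
    rw [hpd] at h1
    exact hb.trans_le h1
  have hgood : Good r {c | c = r.d ∨ c ∈ y.1.2} := by
    refine ⟨?_, Or.inl rfl, ?_, ?_⟩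
    · rintro a (rfl | ha)
      · exact le_rfl
      · exact ((y.2.1 a ha).trans_lt hrd).le
    · intro x hx hcl hxr
      right
      have h1 : ∀ z < x, ∃ c ∈ y.1.2, z < c ∧ c < x := by
        intro z hz
        obtain ⟨c, hc, h1, h2⟩ := hcl z hz
        rcases hc with rfl | hc
        · exact absurd h2 (not_lt.2 hxr)
        · exact ⟨c, hc, h1, h2⟩
      refine y.2.2.2.1 x hx h1 ?_
      by_contra hlt
      obtain ⟨c, hc, h2, _⟩ := h1 _ (not_le.1 hlt)
      exact absurd (y.2.1 c hc) (not_le.2 h2)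
    · rintro a (rfl | ha) hE
      · exact absurd (r.lt _ hE) (lt_irrefl _)
      · have h1 : a < p.d := by
          rw [hpd]
          exact (y.2.1 a ha).trans_lt hb
        have h2 := (hr.2 a h1).1 hE
        rw [hpE] at h2
        exact y.2.2.2.2 a ha h2
  refine ⟨⟨(r, {c | c = r.d ∨ c ∈ y.1.2}), hgood⟩, ⟨hr.trans hp, ?_⟩, hrφ⟩
  intro a ha
  constructor
  · rintro (rfl | h1)
    · exact absurd hrd (not_lt.2 ha)
    · exact h1
  · intro h1
    exact Or.inr h1

/-- the starting pair -/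
theorem good_start (q : Cond) : Good q {q.d} := by
  refine ⟨fun a ha => le_of_eq ha, rfl, ?_, ?_⟩
  · rintro b ⟨x, hx⟩ hcl hb
    obtain ⟨c, hc, _, h2⟩ := hcl x hx
    have h3 : c = q.d := hc
    rw [h3] at h2
    exact absurd h2 (not_lt.2 hb)
  · rintro a ha hE
    have h3 : a = q.d := ha
    rw [h3] at hE
    exact absurd (q.lt _ hE) (lt_irrefl _)

theorem mk_cantor : #(ℕ → Bool) ≤ 𝔠 := by
  rw [← Cardinal.two_power_aleph0]
  simp

theorem noNewFun (p : Cond) : p ∈ NoNewFun Cond := by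
  intro F
  refine mem_fimp.2 fun q _ hq => ?_
  obtain ⟨y, hy, h1⟩ := meet_all chain_lower mk_cantor
    (fun x : ℕ → Bool => {y : G | ∃ k, y.1.1 ∈ meets (F x k)})
    (by
      rintro x y ⟨k, hk⟩ z hz
      exact ⟨k, down_meets _ _ hk _ hz.1⟩)
    ⟨(q, {q.d}), good_start q⟩
    (by
      intro x y hy
      obtain ⟨z, hz, h1⟩ := pair_step y {r | ∃ k, r ∈ meets (F x k)} (by
        intro r hr
        obtain ⟨r', hr', k, hk⟩ := mem_fex.1 (hq.1 x) r (hr.trans hy.1)
        exact ⟨r', hr', k, hk⟩)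
      exact ⟨z, hz, h1⟩)
  choose f hf using h1
  refine ⟨y.1.1, hy.1, mem_fex.2 fun r hr => ⟨r, le_rfl, f, fun x => ?_⟩⟩
  exact down_meets _ _ (hf x) _ hr

end Pool.Agent.Q212.NR
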