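import Mathlib
import Pool.Agent.Q212.NR.Force

set_option autoImplicit false

namespace Pool.Agent.Q212.NR

open Cardinal Set
open Pool.Agent.Helper332.NRS
open Pool.Agent.Helper292.ForceCH (fnot fand fall fimp fex fground meets IsFun mem_fex mem_fimp
  down_meets down_fand down_fall down_fex meets_of_dense Down)

/-- the generic set -/
def gen (a : Kc) : Set Cond := {p | a ∈ p.E}

theorem meets_gen {a : Kc} {q : Cond} (h : q ∈ meets (gen a)) : ∃ r ≤ q, a ∈ r.E := by
  obtain ⟨r, hr, s, hs, hrs⟩ := h q le_rfl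
  exact ⟨r, hr, (hrs.2 a (s.lt a hs)).2 hs⟩

theorem forced_cof (p : Cond) (a : Kc) :
    p ∈ fimp (meets (gen a)) (fground (CofOmega a)) := by
  refine mem_fimp.2 fun q _ hq => ?_
  obtain ⟨r, hr, h⟩ := meets_gen hq
  exact ⟨r, hr, r.cof a h⟩

theorem forced_nr (p : Cond) (a : Kc) :
    p ∈ fimp (fground (IsLim a)) (fex fun C : Set Kc => fand (fground (ClubBelow a C))
      (fall fun c : Kc => fimp (fground (c ∈ C ∧ c < a)) (fnot (meets (gen c))))) := by
  refine mem_fimp.2 fun q _ hlim => ⟨q, le_rfl, mem_fex.2 fun q' _ => ?_⟩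
  obtain ⟨r, hr, hrd, _⟩ := extend q' (max q'.d a) (le_max_left _ _)
  have har : a ≤ r.d := by
    rw [hrd]
    exact le_max_right _ _
  obtain ⟨C, hC1, hC2⟩ := r.nr a har hlim
  refine ⟨r, hr, C, hC1, fun c => mem_fimp.2 fun v hv hc => ⟨v, le_rfl, ?_⟩⟩
  intro w hw h
  obtain ⟨x, hx, hcx⟩ := meets_gen h
  have h1 : x ≤ r := hx.trans (hw.trans hv)
  exact hC2 c hc.1 hc.2 ((h1.2 c (hc.2.trans_le har)).1 hcx)

theorem forced_stat (p : Cond) (C : Kc → Set Cond) :
    p ∈ fimp (IsClubK C) (fex fun a : Kc => fand (meets (gen a)) (meets (C a))) := by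
  refine mem_fimp.2 fun r _ hC => ?_
  -- one step of the construction
  have step : ∀ t ≤ r, ∃ t' ≤ t, t.d ∉ t'.E ∧ ∃ c, t.d < c ∧ c < t'.d ∧ t' ∈ meets (C c) := by
    intro t ht
    obtain ⟨b, hb⟩ := exists_gt_Kc t.d
    obtain ⟨t1, ht1, h1d, h1E⟩ := extend t b hb.le
    obtain ⟨t2, ht2, c, hc, h2⟩ := mem_fex.1 (hC.1 t.d) t1 (ht1.trans ht)
    obtain ⟨e, he⟩ := exists_gt_Kc (max t2.d c)
    obtain ⟨t3, ht3, h3d, _⟩ := extend t2 e ((le_max_left _ _).trans he.le)
    refine ⟨t3, ht3.trans (ht2.trans ht1), ?_, c, hc, ?_, down_meets _ _ h2 _ ht3⟩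
    · intro h
      have h4 : t3 ≤ t1 := ht3.trans ht2
      have h5 := (h4.2 t.d (by rw [h1d]; exact hb)).1 h
      rw [h1E] at h5
      exact lt_irrefl _ (t.lt _ h5)
    · rw [h3d]
      exact (le_max_right _ _).trans_lt he
  choose f hf h1 h2 using step
  let s : ℕ → {t : Cond // t ≤ r} := fun n => Nat.rec ⟨r, le_rfl⟩
    (fun _ t => ⟨f t.1 t.2, (hf t.1 t.2).trans t.2⟩) n
  have hs : ∀ n, (s (n + 1)).1 ≤ (s n).1 := fun n => hf _ (s n).2
  have hanti : ∀ m n, m ≤ n → (s n).1 ≤ (s m).1 := by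
    intro m n h
    induction h with
    | refl => exact le_rfl
    | step h ih => exact (hs _).trans ih
  have hlt : ∀ n, (s n).1.d < (s (n + 1)).1.d := by
    intro n
    obtain ⟨c, hc1, hc2, _⟩ := h2 _ (s n).2
    exact hc1.trans hc2
  have hmono : StrictMono fun n => (s n).1.d := strictMono_nat_of_lt_succ hlt
  obtain ⟨a, ha1, ha2⟩ := exists_lub (range fun n => (s n).1.d)
    ((Cardinal.mk_range_le.trans (by simp)).trans aleph0_le_continuum)
  have hlta : ∀ n, (s n).1.d < a := fun n => ha1 _ ⟨n, rfl⟩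
  have hle : ∀ b < a, ∃ n, b ≤ (s n).1.d := by
    intro b hb
    obtain ⟨_, ⟨n, rfl⟩, hn⟩ := ha2 b hb
    exact ⟨n, hn⟩
  have hcofa : CofOmega a := ⟨fun n => (s n).1.d, hlta, fun b hb => by
    obtain ⟨n, hn⟩ := hle b hb
    exact ⟨n + 1, hn.trans_lt (hlt n)⟩⟩
  obtain ⟨d, hd1, hd2⟩ := exists_lub {a} (by
    rw [Cardinal.mk_singleton]
    exact Cardinal.one_le_aleph0.trans aleph0_le_continuum)
  have had : a < d := hd1 a rfl
  have hd2' : ∀ c < d, c ≤ a := by
    intro c hc
    obtain ⟨b, hb, h⟩ := hd2 c hc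
    exact h.trans_eq hb
  have hE : ∀ n, ∀ x < (s n).1.d, (x = a ∨ ∃ m, x ∈ (s m).1.E) ↔ x ∈ (s n).1.E := by
    intro n x hx
    constructor
    · rintro (rfl | ⟨m, hm⟩)
      · exact absurd (hlta n) (not_lt.2 hx.le)
      · rcases le_total m n with h | h
        · exact ((hanti m n h).2 x ((s m).1.lt x hm)).2 hm
        · exact ((hanti n m h).2 x hx).1 hm
    · intro h
      exact Or.inr ⟨n, h⟩
  have hnE : ∀ n m, (s n).1.d ∉ (s m).1.E := by
    intro n m hm
    rcases le_or_gt m n with h | h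
    · have h3 : (s m).1.d ≤ (s n).1.d := (hanti m n h).1
      exact absurd ((s m).1.lt _ hm) (not_lt.2 h3)
    · have h3 := (hanti (n + 1) m h).2 (s n).1.d (hlt n)
      exact h1 _ (s n).2 (h3.1 hm)
  let t : Cond :=
    { d := d
      E := {x | x = a ∨ ∃ m, x ∈ (s m).1.E}
      lt := by
        rintro x (rfl | ⟨m, hm⟩)
        · exact had
        · exact (((s m).1.lt x hm).trans (hlta m)).trans had
      cof := by
        rintro x (rfl | ⟨m, hm⟩)
        · exact hcofa
        · exact (s m).1.cof x hm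
      nr := by
        intro b hb hlim
        rcases hb.lt_or_eq with h | h
        · rcases (hd2' b h).lt_or_eq with h3 | h3
          · obtain ⟨n, hn⟩ := hle b h3
            obtain ⟨D, hD1, hD2⟩ := (s n).1.nr b hn hlim
            exact ⟨D, hD1, fun c hc hcb h' => hD2 c hc hcb ((hE n c (hcb.trans_le hn)).1 h')⟩
          · refine ⟨range fun n => (s n).1.d, ⟨?_, ?_⟩, ?_⟩
            · intro x hx
              obtain ⟨n, hn⟩ := hle x (hx.trans_eq h3)
              exact ⟨_, ⟨n + 1, rfl⟩, hn.trans_lt (hlt n), (hlta (n + 1)).trans_eq h3.symm⟩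
            · intro x hx hx0 hcl
              exfalso
              obtain ⟨N, hN⟩ := hle x (hx.trans_eq h3)
              -- no element below `x`
              have h4 : ∀ n, ¬ (s n).1.d < x := by
                intro n
                by_contra hcon
                have h5 : ∀ k, (s (n + k)).1.d < x := by
                  intro k
                  induction k with
                  | zero => exact hcon
                  | succ k ih =>
                    obtain ⟨_, ⟨m, rfl⟩, h6, h7⟩ := hcl _ ih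
                    have h8 : n + k < m := hmono.lt_iff_lt.1 h6
                    exact (hmono.monotone (show n + (k + 1) ≤ m by omega)).trans_lt h7
                have h6 : (s N).1.d ≤ (s (n + N)).1.d := hmono.monotone (by omega)
                exact absurd (h6.trans_lt (h5 N)) (not_lt.2 hN)
              obtain ⟨y, hy⟩ := hx0
              obtain ⟨_, ⟨m, rfl⟩, _, h7⟩ := hcl y hy
              exact h4 m h7
            · rintro _ ⟨n, rfl⟩ _ h'
              rcases h' with h' | ⟨m, hm⟩
              · exact absurd h' (hlta n).ne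
              · exact hnE n m hm
        · exfalso
          obtain ⟨c, hc1, hc2⟩ := hlim.2 a (had.trans_eq h.symm)
          exact absurd (hd2' c (hc2.trans_eq h)) (not_le.2 hc1) }
  have ht : ∀ n, t ≤ (s n).1 := fun n => ⟨((hlta n).trans had).le, hE n⟩
  refine ⟨t, (ht 0).trans (s 0).2, mem_fex.2 fun v hv => ⟨v, le_rfl, a, ?_, ?_⟩⟩
  · intro w hw
    exact ⟨w, le_rfl, t, Or.inl rfl, hw.trans hv⟩
  · have h7 : v ∈ fand (fground (∃ b, b < a))
        (fall fun b => fall fun _ : b < a => fex fun c => fand (fground (b < c ∧ c < a))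
          (meets (C c))) := by
      refine ⟨⟨_, hlta 0⟩, fun b hb => mem_fex.2 fun w hw => ?_⟩
      obtain ⟨n, hn⟩ := hle b hb
      obtain ⟨c, hc1, hc2, hc3⟩ := h2 _ (s n).2
      have h8 : c < a := hc2.trans (hlta (n + 1))
      refine ⟨w, le_rfl, c, ⟨hn.trans_lt hc1, h8⟩, ?_⟩
      exact down_meets _ _ hc3 _ (hw.trans (hv.trans (ht (n + 1))))
    refine meets_of_dense fun w hw => ?_
    exact mem_fimp.1 (hC.2 a) w (hw.trans (hv.trans ((ht 0).trans (s 0).2)))
      (down_fand (fun _ h _ _ => h) (down_fall fun _ => down_fall fun _ => down_fex _) _ h7 _ hw)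

theorem nonreflectingForced (p : Cond) : p ∈ NonreflectingForced Cond :=
  mem_fex.2 fun q _ => ⟨q, le_rfl, gen, fun a => forced_cof q a, fun a => forced_nr q a,
    fun C => forced_stat q C⟩

instance : Nonempty Cond := by
  obtain ⟨q, _⟩ := chain_lower Empty (by simp) (fun i => i.elim) (fun i => i.elim)
  exact ⟨q.1.1⟩

/-- There is a forcing notion all of whose conditions force that `Kc` is still the successor of
the continuum and carries a nonreflecting stationary set of points of cofinality `ω`. -/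
theorem exists_forcing : ∃ (P : Type) (_ : Preorder P), Nonempty P ∧ ∀ p : P,
    p ∈ NoNewFun P ∧ p ∈ NonreflectingForced P :=
  ⟨Cond, inferInstance, inferInstance, fun p => ⟨noNewFun p, nonreflectingForced p⟩⟩

end Pool.Agent.Q212.NR
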