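import Pool.Agent.Q212.NR.Dis

set_option autoImplicit false

namespace Pool.Agent.Q212.NR

open Cardinal Set Filter Topology

variable {K : Type} [LinearOrder K] {E : Set K}

/-- The points of `K` (isolated) and the points of `E` (limits of their ladders). -/
def Y (E : Set K) (_t : K → ℕ → K) : Type := K ⊕ E

variable {t : K → ℕ → K}

/-- isolated points -/
def pk (E : Set K) (t : K → ℕ → K) (k : K) : Y E t := Sum.inl k
/-- limit points -/
def pe (t : K → ℕ → K) (a : E) : Y E t := Sum.inr a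

instance : TopologicalSpace (Y E t) where
  IsOpen U := ∀ a : E, pe t a ∈ U → ∀ᶠ n in atTop, pk E t (t a n) ∈ U
  isOpen_univ := fun a _ => Eventually.of_forall fun n => trivial
  isOpen_inter := fun U V hU hV a ha => (hU a ha.1).and (hV a ha.2)
  isOpen_sUnion := fun S hS a ⟨U, hU, ha⟩ => (hS U hU a ha).mono fun n hn => ⟨U, hU, hn⟩

theorem isOpen_Y {U : Set (Y E t)} :
    IsOpen U ↔ ∀ a : E, pe t a ∈ U → ∀ᶠ n in atTop, pk E t (t a n) ∈ U := Iff.rfl

theorem pk_inj {k k' : K} (h : pk E t k = pk E t k') : k = k' := Sum.inl_injective h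
theorem pe_inj {a b : E} (h : pe t a = pe t b) : a = b := Sum.inr_injective h
theorem pk_ne_pe {k : K} {a : E} : pk E t k ≠ pe t a := Sum.inl_ne_inr

theorem cases_Y (y : Y E t) : (∃ k, y = pk E t k) ∨ ∃ a, y = pe t a := by
  rcases y with k | a
  · exact Or.inl ⟨k, rfl⟩
  · exact Or.inr ⟨a, rfl⟩

theorem tendsto_pe (a : E) : Tendsto (fun n => pk E t (t a n)) atTop (𝓝 (pe t a)) := by
  rw [tendsto_nhds]
  intro U hU ha
  exact hU a ha

theorem isOpen_pk (k : K) : IsOpen ({pk E t k} : Set (Y E t)) := by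
  intro a ha
  exact absurd ha.symm pk_ne_pe

/-- the neighbourhood of a limit point given by a tail of the ladder -/
def V (t : K → ℕ → K) (a : E) (m : ℕ) : Set (Y E t) :=
  insert (pe t a) (range fun n => pk E t (t a (n + m)))

theorem mem_V_pk {a : E} {m : ℕ} {k : K} : pk E t k ∈ V t a m ↔ ∃ n ≥ m, t a n = k := by
  constructor
  · rintro (h | ⟨n, hn⟩)
    · exact absurd h pk_ne_pe
    · exact ⟨n + m, Nat.le_add_left _ _, pk_inj hn⟩
  · rintro ⟨n, hn, rfl⟩
    exact Or.inr ⟨n - m, by simp only [Nat.sub_add_cancel hn]⟩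

theorem mem_V_pe {a b : E} {m : ℕ} : pe t b ∈ V t a m ↔ b = a := by
  constructor
  · rintro (h | ⟨n, hn⟩)
    · exact pe_inj h
    · exact absurd hn pk_ne_pe
  · rintro rfl
    exact Or.inl rfl

theorem isOpen_V (a : E) (m : ℕ) : IsOpen (V t a m) := by
  intro b hb
  rw [mem_V_pe] at hb
  subst hb
  filter_upwards [eventually_ge_atTop m] with n hn
  exact mem_V_pk.2 ⟨n, hn, rfl⟩

theorem isCompact_V (a : E) (m : ℕ) : IsCompact (V t a m) :=
  ((tendsto_pe a).comp (tendsto_add_atTop_nat m)).isCompact_insert_range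

theorem Ladder.ad (ht : Ladder E t) {a c : K} (ha : a ∈ E) (hc : c ∈ E) (hne : a ≠ c) :
    ∃ m, ∀ n ≥ m, ∀ j, t a n ≠ t c j := by
  rcases lt_or_gt_of_ne hne with hac | hca
  · obtain ⟨n0, hn0⟩ := ht.above hc hac
    have h3 : ∀ j : ℕ, ∃ m, ∀ n ≥ m, t a n ≠ t c j := by
      intro j
      by_cases hj : t c j < a
      · obtain ⟨m, hm⟩ := ht.above ha hj
        exact ⟨m, fun n hn => (hm n hn).ne'⟩
      · exact ⟨0, fun n _ h => hj (h ▸ ht.lt a ha n)⟩
    choose m hm using h3
    refine ⟨(Finset.range n0).sup m, fun n hn j => ?_⟩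
    by_cases hj : j < n0
    · exact hm j n ((Finset.le_sup (f := m) (Finset.mem_range.2 hj)).trans hn)
    · exact ((ht.lt a ha n).trans (hn0 j (not_lt.1 hj))).ne
  · obtain ⟨m, hm⟩ := ht.above ha hca
    exact ⟨m, fun n hn j => ((ht.lt c hc j).trans (hm n hn)).ne'⟩

theorem isClosed_V (ht : Ladder E t) (a : E) (m : ℕ) : IsClosed (V t a m) := by
  rw [← isOpen_compl_iff, isOpen_Y]
  intro b hb
  have hne : (b : K) ≠ a := fun h => hb (mem_V_pe.2 (Subtype.ext h))
  obtain ⟨m', hm'⟩ := ht.ad b.2 a.2 hne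
  filter_upwards [eventually_ge_atTop m'] with n hn
  intro h
  obtain ⟨j, -, hj⟩ := mem_V_pk.1 h
  exact hm' n hn j hj.symm

theorem isClosed_pk (ht : Ladder E t) (k : K) : IsClosed ({pk E t k} : Set (Y E t)) := by
  rw [← isOpen_compl_iff, isOpen_Y]
  intro b _
  by_cases hk : k < b
  · obtain ⟨m, hm⟩ := ht.above b.2 hk
    filter_upwards [eventually_ge_atTop m] with n hn
    intro h
    exact (hm n hn).ne' (pk_inj h)
  · refine Eventually.of_forall fun n h => hk ?_
    have h1 := pk_inj h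
    rw [← h1]
    exact ht.lt b b.2 n

theorem t2Y (ht : Ladder E t) : T2Space (Y E t) := by
  have key : ∀ x y : Y E t, (∃ U : Set (Y E t), IsOpen U ∧ IsClosed U ∧ x ∈ U ∧ y ∉ U) →
      ∃ u v : Set (Y E t), IsOpen u ∧ IsOpen v ∧ x ∈ u ∧ y ∈ v ∧ Disjoint u v := by
    rintro x y ⟨U, h1, h2, h3, h4⟩
    exact ⟨U, Uᶜ, h1, h2.isOpen_compl, h3, h4, disjoint_compl_right⟩
  refine ⟨fun x y hxy => key x y ?_⟩
  rcases cases_Y x with ⟨k, rfl⟩ | ⟨a, rfl⟩
  · exact ⟨{pk E t k}, isOpen_pk k, isClosed_pk ht k, rfl, fun h => hxy h.symm⟩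
  rcases cases_Y y with ⟨k, rfl⟩ | ⟨b, rfl⟩
  · exact ⟨{pk E t k}ᶜ, (isClosed_pk ht k).isOpen_compl, (isOpen_pk k).isClosed_compl,
      fun h => hxy h, fun h => h rfl⟩
  · exact ⟨V t a 0, isOpen_V a 0, isClosed_V ht a 0, mem_V_pe.2 rfl, fun h =>
      hxy (by rw [mem_V_pe.1 h])⟩

instance : WeaklyLocallyCompactSpace (Y E t) := by
  refine ⟨fun x => ?_⟩
  rcases cases_Y x with ⟨k, rfl⟩ | ⟨a, rfl⟩
  · exact ⟨_, isCompact_singleton, (isOpen_pk k).mem_nhds rfl⟩
  · exact ⟨_, isCompact_V a 0, (isOpen_V a 0).mem_nhds (mem_V_pe.2 rfl)⟩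

/-- the compact space -/
abbrev X (E : Set K) (t : K → ℕ → K) : Type := OnePoint (Y E t)

theorem t2X (ht : Ladder E t) : T2Space (X E t) := by
  have := t2Y ht
  infer_instance

/-- the clopen sets given by the tails of the ladders below `d`, and the isolated points -/
def W (E : Set K) (t : K → ℕ → K) (d : K) (m : K → ℕ) : K ⊕ K → Set (X E t)
  | Sum.inl a => {x | ∃ h : a ∈ E, a < d ∧ x ∈ ((↑) : Y E t → X E t) '' V t ⟨a, h⟩ (m a)}
  | Sum.inr k => {((pk E t k : Y E t) : X E t)}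

theorem isClopen_W (ht : Ladder E t) (d : K) (m : K → ℕ) (γ : K ⊕ K) :
    IsClopen (W E t d m γ) := by
  have h2 := t2Y ht
  have h3 := t2X ht
  have key : ∀ U : Set (Y E t), IsOpen U → IsCompact U →
      IsClopen (((↑) : Y E t → X E t) '' U) := by
    intro U hU hc
    exact ⟨(hc.image OnePoint.continuous_coe).isClosed,
      OnePoint.isOpenEmbedding_coe.isOpenMap U hU⟩
  rcases γ with a | k
  · by_cases h : a ∈ E ∧ a < d
    · have : W E t d m (Sum.inl a) = ((↑) : Y E t → X E t) '' V t ⟨a, h.1⟩ (m a) := by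
        ext x
        constructor
        · rintro ⟨_, _, hx⟩
          exact hx
        · intro hx
          exact ⟨h.1, h.2, hx⟩
      rw [this]
      exact key _ (isOpen_V _ _) (isCompact_V _ _)
    · have : W E t d m (Sum.inl a) = ∅ := by
        ext x
        simp only [mem_empty_iff_false, iff_false]
        rintro ⟨h1, h2, _⟩
        exact h ⟨h1, h2⟩
      rw [this]
      exact isClopen_empty
  · have := key {pk E t k} (isOpen_pk k) isCompact_singleton
    rwa [image_singleton] at this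

theorem finite_W (ht : Ladder E t) {d : K} {m : K → ℕ} (hd : Dis E t d m) (x : X E t) :
    {γ | x ∈ W E t d m γ}.Finite := by
  induction x using OnePoint.rec with
  | infty =>
    refine Set.finite_empty.subset ?_
    rintro (a | k) hγ
    · obtain ⟨_, _, y, _, hy⟩ := hγ
      exact absurd hy (OnePoint.coe_ne_infty _)
    · exact absurd hγ (OnePoint.infty_ne_coe _)
  | coe y =>
    rcases cases_Y y with ⟨k, rfl⟩ | ⟨b, rfl⟩
    · have h1 : ({γ | ((pk E t k : Y E t) : X E t) ∈ W E t d m γ} ∩ range Sum.inl).Subsingleton := by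
        rintro _ ⟨h1, a, rfl⟩ _ ⟨h2, b, rfl⟩
        obtain ⟨ha, had, y, hy, hyk⟩ := h1
        obtain ⟨hb, hbd, z, hz, hzk⟩ := h2
        have h3 := OnePoint.coe_injective hyk
        have h4 := OnePoint.coe_injective hzk
        subst h3
        subst h4
        obtain ⟨i, hi, h5⟩ := mem_V_pk.1 hy
        obtain ⟨j, hj, h6⟩ := mem_V_pk.1 hz
        by_contra hne
        have hne' : a ≠ b := fun h => hne (by rw [h])
        exact hd a ha had b hb hbd hne' i hi j hj (h5.trans h6.symm)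
      refine (h1.finite.union (Set.finite_singleton (Sum.inr k))).subset ?_
      rintro (a | k') hγ
      · exact Or.inl ⟨hγ, a, rfl⟩
      · right
        have h2 : pk E t k = pk E t k' := OnePoint.coe_injective hγ
        rw [pk_inj h2]
        rfl
    · refine (Set.finite_singleton (Sum.inl (b : K))).subset ?_
      rintro (a | k') hγ
      · obtain ⟨ha, had, y, hy, hyk⟩ := hγ
        have h3 := OnePoint.coe_injective hyk
        subst h3
        have h4 := mem_V_pe.1 hy
        rw [h4]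
        rfl
      · have h2 : pe t b = pk E t k' := OnePoint.coe_injective hγ
        exact absurd h2.symm pk_ne_pe

/-- the closed set of the points with index at most `d` -/
def Z (E : Set K) (t : K → ℕ → K) (d : K) : Set (X E t) :=
  {x | ∀ y : Y E t, x = y → (∃ k < d, y = pk E t k) ∨ ∃ a : E, (a : K) ≤ d ∧ y = pe t a}

theorem isClosed_Z (ht : Ladder E t) (d : K) : IsClosed (Z E t d) := by
  rw [← isOpen_compl_iff]
  have h1 : (Z E t d)ᶜ = ((↑) : Y E t → X E t) '' {y | ¬ ((∃ k < d, y = pk E t k) ∨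
      ∃ a : E, (a : K) ≤ d ∧ y = pe t a)} := by
    ext x
    constructor
    · intro hx
      simp only [Z, mem_compl_iff, mem_setOf_eq] at hx
      push Not at hx
      obtain ⟨y, rfl, hy⟩ := hx
      refine ⟨y, ?_, rfl⟩
      rintro (⟨k, hk, h⟩ | ⟨a, ha, h⟩)
      · exact hy.1 k hk h
      · exact hy.2 a ha h
    · rintro ⟨y, hy, rfl⟩ hx
      exact hy (hx y rfl)
  rw [h1]
  refine OnePoint.isOpenEmbedding_coe.isOpenMap _ ?_
  rw [isOpen_Y]
  intro a ha
  have had : d < a := by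
    by_contra h
    exact ha (Or.inr ⟨a, not_lt.1 h, rfl⟩)
  obtain ⟨m, hm⟩ := ht.above a.2 had
  filter_upwards [eventually_ge_atTop m] with n hn
  rintro (⟨k, hk, h⟩ | ⟨b, _, h⟩)
  · have h2 := hm n hn
    rw [pk_inj h] at h2
    exact absurd hk (not_lt.2 h2.le)
  · exact absurd h pk_ne_pe

theorem sep_W {d d' : K} (hdd : d < d') (m : K → ℕ) {x y : X E t} (hx : x ∈ Z E t d)
    (hy : y ∈ Z E t d) (hxy : x ≠ y) :
    ∃ γ, (x ∈ W E t d' m γ ∧ y ∉ W E t d' m γ) ∨ (y ∈ W E t d' m γ ∧ x ∉ W E t d' m γ) := by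
  have key : ∀ x ∈ Z E t d, ∀ y ∈ Z E t d, x ≠ y → x ≠ OnePoint.infty →
      ∃ γ, (x ∈ W E t d' m γ ∧ y ∉ W E t d' m γ) ∨ (y ∈ W E t d' m γ ∧ x ∉ W E t d' m γ) := by
    intro x hx y hy hxy hxi
    obtain ⟨x', rfl⟩ := OnePoint.ne_infty_iff_exists.1 hxi
    rcases hx x' rfl with ⟨k, _, rfl⟩ | ⟨a, ha, rfl⟩
    · exact ⟨Sum.inr k, Or.inl ⟨rfl, fun h => hxy h.symm⟩⟩
    · by_cases hyk : ∃ k, y = ((pk E t k : Y E t) : X E t)
      · obtain ⟨k, rfl⟩ := hyk
        refine ⟨Sum.inr k, Or.inr ⟨rfl, fun h => hxy h⟩⟩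
      · refine ⟨Sum.inl a, Or.inl ⟨⟨a.2, ha.trans_lt hdd, pe t a, mem_V_pe.2 rfl, rfl⟩, ?_⟩⟩
        rintro ⟨_, _, z, hz, rfl⟩
        rcases cases_Y z with ⟨k, rfl⟩ | ⟨b, rfl⟩
        · exact hyk ⟨k, rfl⟩
        · have := mem_V_pe.1 hz
          exact hxy (by rw [this])
  by_cases hxi : x = OnePoint.infty
  · have hyi : y ≠ OnePoint.infty := fun h => hxy (hxi.trans h.symm)
    obtain ⟨γ, h⟩ := key y hy x hx hxy.symm hyi
    exact ⟨γ, h.symm⟩
  · exact key x hx y hy hxy hxi

/-- the closures of the small sets are (uniform) Eberlein compact -/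
theorem small_closure (h : NRSys K E) (ht : Ladder E t) (A : Set (X E t)) (hA : #A ≤ 𝔠) :
    ∃ f : closure A → (K ⊕ K → ℝ), Continuous f ∧ Function.Injective f ∧
      (∀ x, (Function.support (f x)).Finite) ∧ ∀ x γ, |f x γ| ≤ 1 := by
  classical
  let idx : Y E t → K := fun y => Sum.elim id (fun a : E => (a : K)) y
  obtain ⟨d, hd⟩ := h.bdd {k | ∃ y : Y E t, (y : X E t) ∈ A ∧ idx y = k} (by
    have h1 : {k | ∃ y : Y E t, (y : X E t) ∈ A ∧ idx y = k} ⊆
        idx '' (((↑) : Y E t → X E t) ⁻¹' A) := by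
      rintro k ⟨y, hy, rfl⟩
      exact ⟨y, hy, rfl⟩
    refine (Cardinal.mk_le_mk_of_subset h1).trans (Cardinal.mk_image_le.trans ?_)
    exact (Cardinal.mk_preimage_of_injective _ _ OnePoint.coe_injective).trans hA)
  obtain ⟨d', hd'⟩ := h.bdd {d} (by simpa using Cardinal.one_le_aleph0.trans aleph0_le_continuum)
  have hdd : d < d' := hd' d rfl
  obtain ⟨m, hm⟩ := exists_dis h ht d'
  have hAZ : closure A ⊆ Z E t d := by
    refine closure_minimal ?_ (isClosed_Z ht d)
    rintro x hx y rfl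
    have h1 : idx y < d := hd _ ⟨y, hx, rfl⟩
    rcases cases_Y y with ⟨k, rfl⟩ | ⟨a, rfl⟩
    · exact Or.inl ⟨k, h1, rfl⟩
    · exact Or.inr ⟨a, h1.le, rfl⟩
  refine ⟨fun x γ => (W E t d' m γ).indicator (fun _ => (1 : ℝ)) x.1, ?_, ?_, ?_, ?_⟩
  · refine continuous_pi fun γ => ?_
    have h1 : Continuous ((W E t d' m γ).indicator (fun _ => (1 : ℝ))) := by
      refine continuous_const.indicator ?_
      intro a ha
      rw [(isClopen_W ht d' m γ).frontier_eq] at ha
      exact absurd ha (notMem_empty _)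
    exact h1.comp continuous_subtype_val
  · intro x y hxy
    by_contra hne
    obtain ⟨γ, h1 | h1⟩ := sep_W (t := t) hdd m (hAZ x.2) (hAZ y.2) fun h => hne (Subtype.ext h)
    · have h2 := congrFun hxy γ
      simp only [Set.indicator, if_pos h1.1, if_neg h1.2] at h2
      exact one_ne_zero h2
    · have h2 := congrFun hxy γ
      simp only [Set.indicator, if_pos h1.1, if_neg h1.2] at h2
      exact one_ne_zero h2.symm
  · intro x
    refine (finite_W ht hm x.1).subset ?_
    intro γ hγ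
    by_contra hne
    exact hγ (Set.indicator_of_notMem (s := W E t d' m γ) hne _)
  · intro x γ
    simp only [Set.indicator]
    split_ifs <;> simp

/-- the space is not Corson compact -/
theorem not_corson (h : NRSys K E) (ht : Ladder E t) (Γ : Type) (f : X E t → (Γ → ℝ))
    (hf : Continuous f) (hinj : Function.Injective f)
    (hc : ∀ x, (Function.support (f x)).Countable) : False := by
  classical
  let g : X E t → Γ → ℝ := fun x γ => f x γ - f OnePoint.infty γ
  have hg : ∀ γ, Continuous fun x => g x γ := fun γ =>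
    ((continuous_apply γ).comp hf).sub continuous_const
  have hgc : ∀ x, {γ | g x γ ≠ 0}.Countable := by
    intro x
    refine ((hc x).union (hc OnePoint.infty)).mono ?_
    intro γ hγ
    by_contra hne
    simp only [mem_union, Function.mem_support, not_or, not_not] at hne
    exact hγ (by simp only [g, hne.1, hne.2, sub_zero])
  have h1 : ∀ a : E, ∃ γ, g ((pe t a : Y E t) : X E t) γ ≠ 0 := by
    intro a
    have hne : f ((pe t a : Y E t) : X E t) ≠ f OnePoint.infty :=
      fun h => OnePoint.coe_ne_infty _ (hinj h)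
    obtain ⟨γ, hγ⟩ := Function.ne_iff.1 hne
    exact ⟨γ, sub_ne_zero.2 hγ⟩
  choose c hcne using h1
  have h2 : ∀ a : E, ∃ n, g ((pk E t (t a n) : Y E t) : X E t) (c a) ≠ 0 := by
    intro a
    have h3 : Tendsto (fun n => g ((pk E t (t a n) : Y E t) : X E t) (c a)) atTop
        (𝓝 (g ((pe t a : Y E t) : X E t) (c a))) :=
      (((hg (c a)).comp OnePoint.continuous_coe).tendsto _).comp (tendsto_pe a)
    exact (h3.eventually_ne (hcne a)).exists
  choose n hn using h2
  obtain ⟨k, hk⟩ := exists_fibre h (fun a => if ha : a ∈ E then t a (n ⟨a, ha⟩) else a) (by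
    intro a ha
    rw [dif_pos ha]
    exact ht.lt a ha _)
  -- the coordinates of the points of the fibre lie in a countable set
  let Q : Set E := {a | t a (n a) = k}
  have hQ : ¬ Q.Countable := by
    intro hQc
    apply hk
    refine (hQc.image Subtype.val).mono ?_
    rintro a ⟨ha, hak⟩
    rw [dif_pos ha] at hak
    exact ⟨⟨a, ha⟩, hak, rfl⟩
  have h3 : ∀ a ∈ Q, c a ∈ {γ | g ((pk E t k : Y E t) : X E t) γ ≠ 0} := by
    intro a ha
    have := hn a
    rw [show t a (n a) = k from ha] at this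
    exact this
  obtain ⟨γ, j, hinf⟩ : ∃ γ, ∃ j : ℕ, {a : E | 1 / (j + 1 : ℝ) < |g ((pe t a : Y E t) : X E t) γ|}.Infinite := by
    by_contra hcon
    push Not at hcon
    apply hQ
    have h4 : Q ⊆ ⋃ γ ∈ {γ | g ((pk E t k : Y E t) : X E t) γ ≠ 0}, ⋃ j : ℕ,
        {a : E | 1 / (j + 1 : ℝ) < |g ((pe t a : Y E t) : X E t) γ|} := by
      intro a ha
      obtain ⟨j, hj⟩ := exists_nat_one_div_lt (abs_pos.2 (hcne a))
      exact mem_iUnion₂.2 ⟨c a, h3 a ha, mem_iUnion.2 ⟨j, hj⟩⟩
    refine Set.Countable.mono h4 ((hgc _).biUnion fun γ _ => ?_)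
    exact countable_iUnion fun j => (hcon γ j).countable
  -- a compact set containing infinitely many limit points
  have h6 : g OnePoint.infty γ = 0 := sub_self _
  have h7 := (hg γ).tendsto OnePoint.infty
  rw [h6] at h7
  rw [OnePoint.tendsto_nhds_infty] at h7
  obtain ⟨-, C, -, hCc, hC⟩ := h7 {r | |r| < 1 / (j + 1 : ℝ)}
    ((isOpen_lt continuous_abs continuous_const).mem_nhds (by
      simp only [mem_setOf_eq, abs_zero]
      positivity))
  have hE : ∃ a : E, True := by
    obtain ⟨a, _⟩ := hinf.nonempty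
    exact ⟨a, trivial⟩
  obtain ⟨F, hF⟩ := hCc.elim_finite_subcover (fun a : E => insert (pe t a) (range (pk E t)))
    (by
      intro a b hb
      exact Eventually.of_forall fun n => Or.inr ⟨_, rfl⟩)
    (by
      intro y _
      rcases cases_Y y with ⟨k, rfl⟩ | ⟨a, rfl⟩
      · obtain ⟨a, _⟩ := hE
        exact mem_iUnion.2 ⟨a, Or.inr ⟨k, rfl⟩⟩
      · exact mem_iUnion.2 ⟨a, Or.inl rfl⟩)
  refine hinf ((F.finite_toSet).subset ?_)
  intro a ha
  have haC : pe t a ∈ C := by
    by_contra hnC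
    have h8 : |g ((pe t a : Y E t) : X E t) γ| < 1 / (j + 1 : ℝ) := hC hnC
    exact absurd h8 (not_lt.2 (le_of_lt ha))
  obtain ⟨b, hb, h9⟩ := mem_iUnion₂.1 (hF haC)
  rcases h9 with h9 | ⟨k, hk⟩
  · rw [pe_inj h9]
    exact hb
  · exact absurd hk pk_ne_pe

end Pool.Agent.Q212.NR
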