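import Mathlib
import Pool.Agent.Q212.NR.Space
import Pool.Agent.Q212.NR.Force2

set_option autoImplicit false

namespace Pool.Agent.Q212.NR

open Cardinal Set Filter Topology
open Pool.Agent.Helper332.NRS (IsLim CofOmega ClubBelow Club Kc exists_bound mk_Iio_le)

/-- `X` is homeomorphic to a subspace of some `ℝ^Γ` all of whose points have countable support -/
def IsCorson (X : Type) [TopologicalSpace X] : Prop :=
  ∃ (Γ : Type) (f : X → (Γ → ℝ)), IsEmbedding f ∧ ∀ x, (Function.support (f x)).Countable

/-- There is a continuous injection of `X` onto a bounded subset of some `c₀(Γ)` with the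
pointwise topology. -/
def IsEberlein (X : Type) [TopologicalSpace X] : Prop :=
  ∃ (Γ : Type) (f : X → (Γ → ℝ)), Continuous f ∧ Function.Injective f ∧
    (∀ x, Tendsto (f x) cofinite (𝓝 0)) ∧ ∃ M : ℝ, ∀ x γ, |f x γ| ≤ M

/-- `X` is homeomorphic to a subspace of some `{0,1}^Γ` all of whose points have at most two
coordinates equal to one. -/
def TwoSupports (X : Type) [TopologicalSpace X] : Prop :=
  ∃ (Γ : Type) (f : X → (Γ → ℝ)), IsEmbedding f ∧ ∀ x,
    (∀ γ, f x γ = 0 ∨ f x γ = 1) ∧ (Function.support (f x)).encard ≤ 2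

/-- `E` is a set of points of cofinality `ω` of the successor of the continuum, which meets every
closed unbounded set, while below every limit point `a` it misses a closed unbounded subset
of `a`. -/
def IsNonreflecting (E : Set Kc) : Prop :=
  (∀ a ∈ E, CofOmega a) ∧
    (∀ a : Kc, IsLim a → ∃ C : Set Kc, ClubBelow a C ∧ ∀ c ∈ C, c < a → c ∉ E) ∧
    ∀ C : Set Kc, Club C → ∃ a ∈ E, a ∈ C

theorem IsNonreflecting.sys {E : Set Kc} (h : IsNonreflecting E) : NRSys Kc E where
  wf := inferInstance
  small := mk_Iio_le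
  bdd := exists_bound
  cof := h.1
  nonrefl := h.2.1
  stat := h.2.2

theorem TwoSupports.isCorson {X : Type} [TopologicalSpace X] (h : TwoSupports X) : IsCorson X := by
  obtain ⟨Γ, f, hf, h1⟩ := h
  refine ⟨Γ, f, hf, fun x => (Set.Finite.countable ?_)⟩
  exact Set.finite_of_encard_le_coe (k := 2) (h1 x).2

theorem TwoSupports.isEberlein {X : Type} [TopologicalSpace X] (h : TwoSupports X) :
    IsEberlein X := by
  obtain ⟨Γ, f, hf, h1⟩ := h
  refine ⟨Γ, f, hf.continuous, hf.injective, fun x => ?_, 1, fun x γ => ?_⟩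
  · have h2 : (Function.support (f x)).Finite :=
      Set.finite_of_encard_le_coe (k := 2) (h1 x).2
    refine tendsto_const_nhds.congr' ?_
    filter_upwards [h2.compl_mem_cofinite] with γ hγ
    exact (Function.notMem_support.1 hγ).symm
  · rcases (h1 x).1 γ with h2 | h2 <;> rw [h2] <;> norm_num

theorem IsEberlein.isCorson {X : Type} [TopologicalSpace X] [CompactSpace X]
    (h : IsEberlein X) : IsCorson X := by
  obtain ⟨Γ, f, hf, hinj, h1, _⟩ := h
  refine ⟨Γ, f, (hf.isClosedEmbedding hinj).isEmbedding, fun x => ?_⟩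
  have h2 := (h1 x).countable_compl_preimage_ker
  refine h2.mono ?_
  intro γ hγ h3
  simp only [ker_nhds, mem_preimage, mem_singleton_iff] at h3
  exact hγ h3

section

variable {K : Type} [LinearOrder K] {E : Set K} {t : K → ℕ → K}

theorem encard_W {d : K} {m : K → ℕ} (hd : Dis E t d m) (x : X E t) :
    {γ | x ∈ W E t d m γ}.encard ≤ 2 := by
  induction x using OnePoint.rec with
  | infty =>
    have : {γ | (OnePoint.infty : X E t) ∈ W E t d m γ} = ∅ := by
      ext γ
      simp only [mem_empty_iff_false, iff_false]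
      rcases γ with a | k
      · rintro ⟨_, _, y, _, hy⟩
        exact absurd hy (OnePoint.coe_ne_infty _)
      · intro hγ
        exact absurd hγ (OnePoint.infty_ne_coe _)
    rw [this, encard_empty]
    exact zero_le
  | coe y =>
    rcases cases_Y y with ⟨k, rfl⟩ | ⟨b, rfl⟩
    · have h1 : ({γ | ((pk E t k : Y E t) : X E t) ∈ W E t d m γ} ∩ range Sum.inl).Subsingleton := by
        rintro _ ⟨h1, a, rfl⟩ _ ⟨h2, b, rfl⟩
        obtain ⟨ha, had, y, hy, hyk⟩ := h1
        obtain ⟨hb, hbd, z, hz, hzk⟩ := h2
        have h3 := OnePoint.coe_injective hyk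
        have h4 := OnePoint.coe_injective hzk
        subst h3
        subst h4
        obtain ⟨i, hi, h5⟩ := mem_V_pk.1 hy
        obtain ⟨j, hj, h6⟩ := mem_V_pk.1 hz
        by_contra hne
        have hne' : a ≠ b := fun h => hne (by rw [h])
        exact hd a ha had b hb hbd hne' i hi j hj (h5.trans h6.symm)
      have h2 : {γ | ((pk E t k : Y E t) : X E t) ∈ W E t d m γ} ⊆
          ({γ | ((pk E t k : Y E t) : X E t) ∈ W E t d m γ} ∩ range Sum.inl) ∪
            {Sum.inr k} := by
        rintro (a | k') hγ
        · exact Or.inl ⟨hγ, a, rfl⟩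
        · right
          have h2 : pk E t k = pk E t k' := OnePoint.coe_injective hγ
          rw [pk_inj h2]
          rfl
      refine (encard_le_encard h2).trans ((encard_union_le _ _).trans ?_)
      have h3 : ({γ | ((pk E t k : Y E t) : X E t) ∈ W E t d m γ} ∩ range Sum.inl).encard ≤ 1 :=
        encard_le_one_iff_subsingleton.2 h1
      rw [encard_singleton]
      calc _ ≤ (1 : ℕ∞) + 1 := by gcongr
        _ = 2 := one_add_one_eq_two
    · have h2 : {γ | ((pe t b : Y E t) : X E t) ∈ W E t d m γ} ⊆ {Sum.inl (b : K)} := by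
        rintro (a | k') hγ
        · obtain ⟨ha, had, y, hy, hyk⟩ := hγ
          have h3 := OnePoint.coe_injective hyk
          subst h3
          have h4 := mem_V_pe.1 hy
          rw [h4]
          rfl
        · have h2 : pe t b = pk E t k' := OnePoint.coe_injective hγ
          exact absurd h2.symm pk_ne_pe
      refine (encard_le_encard h2).trans ?_
      rw [encard_singleton]
      exact one_le_two

theorem small_closure2 (h : NRSys K E) (ht : Ladder E t) (A : Set (X E t)) (hA : #A ≤ 𝔠) :
    TwoSupports (closure A) := by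
  classical
  let idx : Y E t → K := fun y => Sum.elim id (fun a : E => (a : K)) y
  obtain ⟨d, hd⟩ := h.bdd {k | ∃ y : Y E t, (y : X E t) ∈ A ∧ idx y = k} (by
    have h1 : {k | ∃ y : Y E t, (y : X E t) ∈ A ∧ idx y = k} ⊆
        idx '' (((↑) : Y E t → X E t) ⁻¹' A) := by
      rintro k ⟨y, hy, rfl⟩
      exact ⟨y, hy, rfl⟩
    refine (Cardinal.mk_le_mk_of_subset h1).trans (Cardinal.mk_image_le.trans ?_)
    exact (Cardinal.mk_preimage_of_injective _ _ OnePoint.coe_injective).trans hA)
  obtain ⟨d', hd'⟩ := h.bdd {d} (by simpa using Cardinal.one_le_aleph0.trans aleph0_le_continuum)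
  have hdd : d < d' := hd' d rfl
  obtain ⟨m, hm⟩ := exists_dis h ht d'
  have hAZ : closure A ⊆ Z E t d := by
    refine closure_minimal ?_ (isClosed_Z ht d)
    rintro x hx y rfl
    have h1 : idx y < d := hd _ ⟨y, hx, rfl⟩
    rcases cases_Y y with ⟨k, rfl⟩ | ⟨a, rfl⟩
    · exact Or.inl ⟨k, h1, rfl⟩
    · exact Or.inr ⟨a, h1.le, rfl⟩
  have := t2X ht
  have hcomp : CompactSpace (closure A) :=
    isCompact_iff_compactSpace.1 isClosed_closure.isCompact
  have hcont : Continuous fun (x : closure A) (γ : K ⊕ K) =>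
      (W E t d' m γ).indicator (fun _ => (1 : ℝ)) x.1 := by
    refine continuous_pi fun γ => ?_
    have h1 : Continuous ((W E t d' m γ).indicator (fun _ => (1 : ℝ))) := by
      refine continuous_const.indicator ?_
      intro a ha
      rw [(isClopen_W ht d' m γ).frontier_eq] at ha
      exact absurd ha (notMem_empty _)
    exact h1.comp continuous_subtype_val
  have hinj : Function.Injective fun (x : closure A) (γ : K ⊕ K) =>
      (W E t d' m γ).indicator (fun _ => (1 : ℝ)) x.1 := by
    intro x y hxy
    by_contra hne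
    obtain ⟨γ, h1 | h1⟩ := sep_W (t := t) hdd m (hAZ x.2) (hAZ y.2) fun h => hne (Subtype.ext h)
    · have h2 := congrFun hxy γ
      simp only [Set.indicator, if_pos h1.1, if_neg h1.2] at h2
      exact one_ne_zero h2
    · have h2 := congrFun hxy γ
      simp only [Set.indicator, if_pos h1.1, if_neg h1.2] at h2
      exact one_ne_zero h2.symm
  refine ⟨K ⊕ K, _, (hcont.isClosedEmbedding hinj).isEmbedding, fun x => ⟨fun γ => ?_, ?_⟩⟩
  · simp only [Set.indicator]
    split_ifs <;> simp
  · refine (encard_le_encard ?_).trans (encard_W hm x.1)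
    intro γ hγ
    by_contra hne
    exact hγ (Set.indicator_of_notMem (s := W E t d' m γ) hne _)

/-- the space given by a nonreflecting stationary set -/
theorem exists_space (h : NRSys K E) : ∃ (X : Type) (_ : TopologicalSpace X), CompactSpace X ∧
    T2Space X ∧ (∀ A : Set X, #A ≤ 𝔠 → TwoSupports (closure A)) ∧ ¬ IsCorson X := by
  obtain ⟨t, ht⟩ := h.exists_ladder
  refine ⟨X E t, inferInstance, inferInstance, t2X ht, small_closure2 h ht, ?_⟩
  rintro ⟨Γ, f, hf, hc⟩
  exact not_corson h ht Γ f hf.continuous hf.injective hc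

end

end Pool.Agent.Q212.NR
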