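import Mathlib
import Pool.Agent.Helper292.ForceCH
import Pool.Agent.Helper639.CorH
import Pool.Agent.Q212.NR.AxR

set_option autoImplicit false

open Set Topology Cardinal

namespace Pool.Agent.Q212.NR

open Pool.Agent.Helper639.Cor (CorsonOn PCon SepOn Splits CTight Dn Good lemA)

variable {X : Type} [TopologicalSpace X] [CompactSpace X] [T2Space X]

omit [T2Space X] in
/-- countable tightness of the closed Corson sets -/
theorem tight_of_corsonOn {Z : Set X} (hZ : IsClosed Z) (h : CorsonOn Z) {B : Set X} (hB : B ⊆ Z)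
    {x : X} (hx : x ∈ closure B) : ∃ C ⊆ B, C.Countable ∧ x ∈ closure C := by
  obtain ⟨F, hF, hsep⟩ := h
  have : CompactSpace Z := isCompact_iff_compactSpace.1 hZ.isCompact
  have hspl : Splits Z := by
    intro A
    refine ⟨(fun f : C(X, ℝ) => f.restrict Z) '' F, ?_, ?_⟩
    · intro z _
      have : {f | f ∈ (fun f : C(X, ℝ) => f.restrict Z) '' F ∧ f z ≠ 0} ⊆
          (fun f : C(X, ℝ) => f.restrict Z) '' {f | f ∈ F ∧ f z.1 ≠ 0} := by
        rintro _ ⟨⟨f, hf, rfl⟩, hne⟩
        exact ⟨f, ⟨hf, hne⟩, rfl⟩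
      exact ((hF z.1 z.2).image _).mono this
    · intro x hx y hy
      by_contra hcon
      push Not at hcon
      apply hy
      have : x = y := Subtype.ext (hsep x.1 x.2 y.1 y.2 fun f hf => hcon _ ⟨f, hf, rfl⟩)
      exact this ▸ hx
  have hct := hspl.ctight
  have hxZ : x ∈ Z := closure_minimal hB hZ hx
  have hx' : (⟨x, hxZ⟩ : Z) ∈ closure ((Subtype.val : Z → X) ⁻¹' B) := by
    rw [closure_subtype, Subtype.image_preimage_coe, inter_eq_right.2 hB]
    exact hx
  obtain ⟨C, hC1, hC2, hC3⟩ := hct _ _ hx'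
  refine ⟨Subtype.val '' C, ?_, hC2.image _, ?_⟩
  · rintro _ ⟨c, hc, rfl⟩
    exact hC1 hc
  · exact closure_subtype.1 hC3

theorem countable_Iic (ξ : Om1) : (Iic ξ).Countable := by
  have : Iic ξ = insert ξ (Iio ξ) := by
    ext x
    simp [le_iff_eq_or_lt]
  rw [this]
  exact Set.Countable.insert _
    (Set.countable_coe_iff.1 (Pool.Agent.Helper292.ForceCH.countable_Iio ξ))

omit [TopologicalSpace X] [CompactSpace X] [T2Space X] in
theorem bounded_of_countable {C : Set X} (hC : C.Countable) (j : X → Om1) :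
    ∃ η : Om1, ∀ c ∈ C, j c < η := by
  rcases C.eq_empty_or_nonempty with rfl | hne
  · exact ⟨Classical.arbitrary _, fun c hc => absurd hc (notMem_empty _)⟩
  · obtain ⟨e, he⟩ := hC.exists_eq_range hne
    obtain ⟨η, hη⟩ := Pool.Agent.Helper292.ForceCH.exists_bound fun n => j (e n)
    refine ⟨η, fun c hc => ?_⟩
    rw [he] at hc
    obtain ⟨n, rfl⟩ := hc
    exact hη n

/-- a compact space in which the closures of the sets of size at most `ℵ₁` are Corson compact is
countably tight -/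
theorem ctight_of_small (H : ∀ A : Set X, #A ≤ ℵ₁ → CorsonOn (closure A)) : CTight X := by
  classical
  intro B x hx
  let A : Set X := {y | ∃ C ⊆ B, C.Countable ∧ y ∈ closure C}
  have hAω : ∀ C ⊆ A, C.Countable → closure C ⊆ A := by
    intro C hCA hC y hy
    have hCA' : ∀ c ∈ C, ∃ D ⊆ B, D.Countable ∧ c ∈ closure D := fun c hc => hCA hc
    choose! D hDB hDc hD using hCA'
    refine ⟨⋃ c ∈ C, D c, ?_, hC.biUnion fun c hc => hDc c hc, ?_⟩
    · simp only [iUnion_subset_iff]
      intro c hc; exact hDB c hc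
    · have : C ⊆ closure (⋃ c ∈ C, D c) := by
        intro c hc
        exact closure_mono (subset_biUnion_of_mem (u := fun c => D c) hc) (hD c hc)
      exact closure_minimal this isClosed_closure hy
  have hBA : B ⊆ A := fun b hb =>
    ⟨{b}, singleton_subset_iff.2 hb, countable_singleton b, subset_closure rfl⟩
  by_contra hxA
  have hxcl : x ∈ closure A := closure_mono hBA hx
  -- functions
  have hG : ∀ C : Set X, ∃ g : C(X, ℝ), g x = 0 ∧
      (C ⊆ A → C.Countable → ∀ y ∈ closure C, g y = 1) := by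
    intro C
    by_cases h : C ⊆ A ∧ C.Countable
    · have hxC : x ∉ closure C := fun h' => hxA (hAω C h.1 h.2 h')
      obtain ⟨g, hg0, hg1, _⟩ := exists_continuous_zero_one_of_isClosed
        (isClosed_singleton (x := x)) (isClosed_closure (s := C)) (by simpa using hxC)
      exact ⟨g, hg0 rfl, fun _ _ y hy => hg1 hy⟩
    · exact ⟨0, rfl, fun h1 h2 => absurd ⟨h1, h2⟩ h⟩
  choose G hG0 hG1 using hG
  -- twins
  have htw : ∀ M : Set C(X, ℝ), M.Countable → ∃ p ∈ A, ∀ f ∈ M, f p = f x := by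
    intro M hM
    obtain ⟨C, hC1, hC2, hC3⟩ := lemA A M
    obtain ⟨x', hx', hf⟩ := hC3 x hxcl
    refine ⟨x', hAω C hC1 ?_ hx', hf⟩
    rw [← Cardinal.le_aleph0_iff_set_countable]
    exact hC2.trans (max_le (Cardinal.le_aleph0_iff_set_countable.2 hM) le_rfl)
  -- recursion
  let D : (ξ : Om1) → ((ζ : Om1) → ζ < ξ → X) → Om1 → Set X :=
    fun ξ g η => {y | ∃ ζ, ∃ h : ζ < ξ, ζ < η ∧ y = g ζ h}
  have hst : ∀ (ξ : Om1) (g : (ζ : Om1) → ζ < ξ → X), ∃ p, p ∈ A ∧ ∀ η ≤ ξ, G (D ξ g η) p = 0 := by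
    intro ξ g
    obtain ⟨p, hp, h1⟩ := htw ((fun η => G (D ξ g η)) '' Iic ξ) ((countable_Iic ξ).image _)
    exact ⟨p, hp, fun η hη => (h1 _ ⟨η, hη, rfl⟩).trans (hG0 _)⟩
  choose st hst1 hst2 using hst
  let a : Om1 → X := WellFounded.fix (wellFounded_lt (α := Om1)) st
  have ha : ∀ ξ, a ξ = st ξ fun ζ _ => a ζ := fun ξ =>
    WellFounded.fix_eq (wellFounded_lt (α := Om1)) st ξ
  have haA : ∀ ξ, a ξ ∈ A := fun ξ => by
    rw [ha]
    exact hst1 _ _
  have ha0 : ∀ η ξ, η ≤ ξ → G (a '' Iio η) (a ξ) = 0 := by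
    intro η ξ hηξ
    have h1 := hst2 ξ (fun ζ _ => a ζ) η hηξ
    have h2 : D ξ (fun ζ _ => a ζ) η = a '' Iio η := by
      ext y
      constructor
      · rintro ⟨ζ, _, h, rfl⟩
        exact ⟨ζ, h, rfl⟩
      · rintro ⟨ζ, h, rfl⟩
        exact ⟨ζ, lt_of_lt_of_le h hηξ, h, rfl⟩
    rw [h2, ← ha] at h1
    exact h1
  -- the tails
  have hne : (⋂ η : Om1, closure (a '' Ici η)).Nonempty := by
    apply IsCompact.nonempty_iInter_of_directed_nonempty_isCompact_isClosed
    · intro η ξ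
      refine ⟨max η ξ, ?_, ?_⟩
      · exact closure_mono (image_mono (Ici_subset_Ici.2 (le_max_left _ _)))
      · exact closure_mono (image_mono (Ici_subset_Ici.2 (le_max_right _ _)))
    · intro η
      exact ⟨a η, subset_closure ⟨η, mem_Ici.2 le_rfl, rfl⟩⟩
    · intro η
      exact isClosed_closure.isCompact
    · intro η
      exact isClosed_closure
  obtain ⟨y, hy⟩ := hne
  rw [mem_iInter] at hy
  have hyr : y ∈ closure (range a) :=
    closure_mono (image_subset_range _ _) (hy (Classical.arbitrary _))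
  have hcard : #(range a) ≤ ℵ₁ := by
    refine Cardinal.mk_range_le.trans ?_
    rw [Cardinal.mk_toType, Cardinal.card_ord]
  obtain ⟨C, hCr, hC, hyC⟩ := tight_of_corsonOn isClosed_closure (H (range a) hcard)
    subset_closure hyr
  have hj : ∀ c : X, ∃ j : Om1, c ∈ C → a j = c := by
    intro c
    by_cases hc : c ∈ C
    · obtain ⟨j, hj⟩ := hCr hc
      exact ⟨j, fun _ => hj⟩
    · exact ⟨Classical.arbitrary _, fun h => absurd h hc⟩
  choose j hj using hj
  obtain ⟨η, hη⟩ := bounded_of_countable hC j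
  have hyη : y ∈ closure (a '' Iio η) := 
    closure_mono (show C ⊆ a '' Iio η from fun c hc => ⟨j c, hη c hc, hj c hc⟩) hyC
  have h1 : G (a '' Iio η) y = 1 := by
    refine hG1 _ ?_ ?_ y hyη
    · rintro _ ⟨ζ, _, rfl⟩
      exact haA ζ
    · exact ((countable_Iic η).mono Iio_subset_Iic_self).image _
  have h2 : G (a '' Iio η) y = 0 := by
    have hcl : IsClosed {z | G (a '' Iio η) z = 0} :=
      isClosed_eq (G _).continuous continuous_const
    refine closure_minimal ?_ hcl (hy η)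
    rintro _ ⟨ξ, hξ, rfl⟩
    exact ha0 η ξ hξ
  rw [h2] at h1
  exact zero_ne_one h1

end Pool.Agent.Q212.NR
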