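import Mathlib
import Pool.Agent.Helper639.CorJ
import Pool.Agent.Q212.NR.AxR
import Pool.Agent.Q212.NR.LemG
import Pool.Agent.Q212.NR.Tight

set_option autoImplicit false

open Set Topology Cardinal

namespace Pool.Agent.Q212.NR

open Pool.Agent.Helper639.Cor (CorsonOn PCon SepOn Splits CTight Dn Good lemA trim_sep Dn_iUnion
  chain_lemma chain_exists CorsonOn.of_subtype)

section

variable {X : Type} [TopologicalSpace X]

/-- the points coded in `S` -/
def Bs (S : Set (X ⊕ C(X, ℝ))) : Set X := {x | Sum.inl x ∈ S}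

/-- the functions coded in `S` -/
def Ms (S : Set (X ⊕ C(X, ℝ))) : Set C(X, ℝ) := {f | Sum.inr f ∈ S}

theorem Bs_mono {S S' : Set (X ⊕ C(X, ℝ))} (h : S ⊆ S') : Bs S ⊆ Bs S' := fun _ hx => h hx
theorem Ms_mono {S S' : Set (X ⊕ C(X, ℝ))} (h : S ⊆ S') : Ms S ⊆ Ms S' := fun _ hx => h hx

theorem mk_Bs (S : Set (X ⊕ C(X, ℝ))) : #(Bs S) ≤ #S :=
  Cardinal.mk_preimage_of_injective Sum.inl S Sum.inl_injective

theorem mk_Ms (S : Set (X ⊕ C(X, ℝ))) : #(Ms S) ≤ #S :=
  Cardinal.mk_preimage_of_injective Sum.inr S Sum.inr_injective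

/-- every function is captured, on a closed set, by countably many members of a family separating
the points of this set -/
theorem capture_on [CompactSpace X] {Z : Set X} (hZ : IsClosed Z) {E : Set C(X, ℝ)}
    (hE : SepOn Z E) (f : C(X, ℝ)) :
    ∃ M ⊆ E, M.Countable ∧ ∀ x ∈ Z, ∀ y ∈ Z, (∀ g ∈ M, g x = g y) → f x = f y := by
  classical
  have h1 : ∀ n : ℕ, ∃ t : Set C(X, ℝ), t ⊆ E ∧ t.Finite ∧
      ∀ p : X × X, p.1 ∈ Z → p.2 ∈ Z → 1 / ((n : ℝ) + 1) ≤ |f p.1 - f p.2| →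
        ∃ g ∈ t, g p.1 ≠ g p.2 := by
    intro n
    let Q : Set (X × X) := (Z ×ˢ Z) ∩ {p | 1 / ((n : ℝ) + 1) ≤ |f p.1 - f p.2|}
    have hQ : IsCompact Q := by
      apply IsClosed.isCompact
      apply (hZ.prod hZ).inter
      apply isClosed_le continuous_const
      exact ((f.continuous.comp continuous_fst).sub (f.continuous.comp continuous_snd)).abs
    have ho : ∀ g ∈ E, IsOpen {p : X × X | g p.1 ≠ g p.2} := by
      intro g _
      exact isOpen_ne_fun (g.continuous.comp continuous_fst) (g.continuous.comp continuous_snd)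
    have hcov : Q ⊆ ⋃ g ∈ E, {p : X × X | g p.1 ≠ g p.2} := by
      intro p hp
      simp only [mem_iUnion]
      by_contra hall
      push Not at hall
      have heq : p.1 = p.2 := hE _ hp.1.1 _ hp.1.2 (fun g hg => by
        by_contra hne
        exact hall g hg hne)
      have hp' : 1 / ((n : ℝ) + 1) ≤ |f p.1 - f p.2| := hp.2
      rw [heq, sub_self, abs_zero] at hp'
      have : (0:ℝ) < 1 / ((n : ℝ) + 1) := by positivity
      linarith
    obtain ⟨t, htE, htfin, htc⟩ := hQ.elim_finite_subcover_image ho hcov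
    refine ⟨t, htE, htfin, ?_⟩
    intro p hp1 hp2 hp
    have := htc (show p ∈ Q from ⟨⟨hp1, hp2⟩, hp⟩)
    simp only [mem_iUnion] at this
    obtain ⟨g, hg, hne⟩ := this
    exact ⟨g, hg, hne⟩
  choose t htE htfin ht using h1
  refine ⟨⋃ n, t n, iUnion_subset htE, countable_iUnion fun n => (htfin n).countable, ?_⟩
  intro x hx y hy hxy
  by_contra hne
  have hpos : 0 < |f x - f y| := abs_pos.2 (sub_ne_zero.2 hne)
  obtain ⟨n, hn⟩ := exists_nat_one_div_lt hpos
  obtain ⟨g, hg, hgne⟩ := ht n (x, y) hx hy hn.le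
  exact hgne (hxy g (mem_iUnion.2 ⟨n, hg⟩))

/-- the finite set of the functions in a list -/
def tl (l : List (X ⊕ C(X, ℝ))) : Set C(X, ℝ) := {g | Sum.inr g ∈ l}

theorem finite_tl (l : List (X ⊕ C(X, ℝ))) : (tl l).Finite :=
  (l.finite_toSet).preimage Sum.inr_injective.injOn

/-- in a good set with Corson closure, club many subsets are good -/
theorem local_good [CompactSpace X] {I : Set (X ⊕ C(X, ℝ))} (hne : I.Nonempty)
    (hI : Good (Bs I) (Ms I)) (hcor : CorsonOn (closure (Bs I))) :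
    ∃ f : List (X ⊕ C(X, ℝ)) → X ⊕ C(X, ℝ), ClosedUnder f I ∧
      ∀ S ⊆ I, ClosedUnder f S → Good (Bs S) (Ms S) := by
  classical
  obtain ⟨F, hF, hsep⟩ := hcor
  choose N hN1 hN2 hN3 using fun g : C(X, ℝ) => capture_on isClosed_closure hI.2 g
  choose C hC1 hC2 hC3 using fun l : List (X ⊕ C(X, ℝ)) => lemA (Bs I) (tl l)
  let Q : List (X ⊕ C(X, ℝ)) → Set (X ⊕ C(X, ℝ)) := fun l => Sum.inl '' C l ∪
    {z | ∃ b, Sum.inl b ∈ l ∧ ∃ g ∈ F, g b ≠ 0 ∧ ∃ h ∈ N g, z = Sum.inr h}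
  have hQ : ∀ l, (∀ a ∈ l, a ∈ I) → (Q l).Countable ∧ Q l ⊆ I := by
    intro l hl
    refine ⟨?_, ?_⟩
    · refine Set.Countable.union ?_ ?_
      · refine Set.Countable.image ?_ _
        rw [← Cardinal.le_aleph0_iff_set_countable]
        exact (hC2 l).trans (max_le (Cardinal.le_aleph0_iff_set_countable.2
          (finite_tl l).countable) le_rfl)
      · have h1 : {b : X | Sum.inl b ∈ l}.Finite := (l.finite_toSet).preimage
          Sum.inl_injective.injOn
        have h2 : {z | ∃ b, Sum.inl b ∈ l ∧ ∃ g ∈ F, g b ≠ 0 ∧ ∃ h ∈ N g,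
            z = (Sum.inr h : X ⊕ C(X, ℝ))} ⊆
            ⋃ b ∈ {b : X | Sum.inl b ∈ l}, ⋃ g ∈ {g | g ∈ F ∧ g b ≠ 0}, Sum.inr '' N g := by
          rintro z ⟨b, hb, g, hg, hgb, h, hh, rfl⟩
          exact mem_iUnion₂.2 ⟨b, hb, mem_iUnion₂.2 ⟨g, ⟨hg, hgb⟩, h, hh, rfl⟩⟩
        refine Set.Countable.mono h2 (h1.countable.biUnion fun b hb => ?_)
        exact (hF b (subset_closure (hl _ hb))).biUnion fun g _ => (hN2 g).image _
    · rintro z (⟨c, hc, rfl⟩ | ⟨b, _, g, _, _, h, hh, rfl⟩)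
      · exact hC1 l hc
      · exact hN1 g hh
  obtain ⟨f, hfI, hf⟩ := exists_single hne Q hQ
  refine ⟨f, hfI, fun S hSI hS => ?_⟩
  have hQS := hf S hSI hS
  refine ⟨?_, ?_⟩
  · have hne' : Nonempty {l : List (X ⊕ C(X, ℝ)) // ∀ a ∈ l, a ∈ S} := ⟨⟨[], by simp⟩⟩
    have hDn : Dn univ (⋃ _l : {l : List (X ⊕ C(X, ℝ)) // ∀ a ∈ l, a ∈ S}, Bs S)
        (⋃ l : {l : List (X ⊕ C(X, ℝ)) // ∀ a ∈ l, a ∈ S}, tl l.1) := by
      apply Dn_iUnion
      · intro l l'
        refine ⟨⟨l.1 ++ l'.1, ?_⟩, subset_rfl, subset_rfl, ?_, ?_⟩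
        · intro a ha
          rcases List.mem_append.1 ha with ha | ha
          · exact l.2 a ha
          · exact l'.2 a ha
        · intro g hg
          exact List.mem_append_left _ hg
        · intro g hg
          exact List.mem_append_right _ hg
      · intro l x hx
        obtain ⟨x', hx', h1⟩ := hI.1 x hx
        obtain ⟨x'', hx'', h2⟩ := hC3 l.1 x' hx'
        refine ⟨x'', closure_mono ?_ hx'', fun g hg => ?_⟩
        · intro c hc
          exact hQS l.1 l.2 (Or.inl ⟨c, hc, rfl⟩)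
        · exact (h2 g hg).trans (h1 g (hSI (l.2 _ hg)))
    intro x hx
    obtain ⟨x', hx', h1⟩ := hDn x hx
    rw [iUnion_const] at hx'
    refine ⟨x', hx', fun g hg => h1 g ?_⟩
    refine mem_iUnion.2 ⟨⟨[Sum.inr g], ?_⟩, ?_⟩
    · intro a ha
      rw [List.mem_singleton] at ha
      rw [ha]
      exact hg
    · exact List.mem_singleton.2 rfl
  · intro x hx y hy hxy
    by_contra hne2
    have hxI := closure_mono (Bs_mono hSI) hx
    have hyI := closure_mono (Bs_mono hSI) hy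
    have h1 : ∃ g ∈ F, g x ≠ g y := by
      by_contra hcon
      push Not at hcon
      exact hne2 (hsep x hxI y hyI hcon)
    obtain ⟨g, hg, hgne⟩ := h1
    obtain ⟨-, b, hb, hgb⟩ := trim_sep hx hy hg hgne
    apply hgne
    apply hN3 g x hxI y hyI
    intro h hh
    apply hxy
    refine hQS [Sum.inl b] ?_ (Or.inr ⟨b, List.mem_singleton.2 rfl, g, hg, hgb, h, hh, rfl⟩)
    intro a ha
    rw [List.mem_singleton] at ha
    rw [ha]
    exact hb

/-- if the countable closed sets are good, then so are all closed sets -/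
theorem good_of_countable [CompactSpace X] (hct : CTight X)
    (f : List (X ⊕ C(X, ℝ)) → X ⊕ C(X, ℝ))
    (hf : ∀ S : Set (X ⊕ C(X, ℝ)), S.Countable → ClosedUnder f S → Good (Bs S) (Ms S))
    (S : Set (X ⊕ C(X, ℝ))) (hS : ClosedUnder f S) : Good (Bs S) (Ms S) := by
  let ι := {A : Set (X ⊕ C(X, ℝ)) // A ⊆ S ∧ A.Countable}
  have hι : Nonempty ι := ⟨⟨∅, empty_subset _, countable_empty⟩⟩
  have hcl : ∀ A : ι, Good (Bs (cl f A.1)) (Ms (cl f A.1)) := fun A =>
    hf _ (countable_cl f A.2.2) (closed_cl f _)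
  have hmono : ∀ A A' : Set (X ⊕ C(X, ℝ)), A ⊆ A' → cl f A ⊆ cl f A' := fun A A' h =>
    cl_subset f (closed_cl f A') (h.trans (subset_cl f A'))
  refine ⟨?_, ?_⟩
  · have hDn : Dn univ (⋃ A : ι, Bs (cl f A.1)) (⋃ A : ι, Ms (cl f A.1)) := by
      apply Dn_iUnion
      · intro A A'
        refine ⟨⟨A.1 ∪ A'.1, union_subset A.2.1 A'.2.1, A.2.2.union A'.2.2⟩, ?_, ?_, ?_, ?_⟩
        · exact Bs_mono (hmono _ _ subset_union_left)
        · exact Bs_mono (hmono _ _ subset_union_right)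
        · exact Ms_mono (hmono _ _ subset_union_left)
        · exact Ms_mono (hmono _ _ subset_union_right)
      · intro A
        exact (hcl A).1
    intro x hx
    obtain ⟨x', hx', h1⟩ := hDn x hx
    refine ⟨x', closure_mono ?_ hx', fun g hg => h1 g ?_⟩
    · exact iUnion_subset fun A => Bs_mono (cl_subset f hS A.2.1)
    · refine mem_iUnion.2 ⟨⟨{Sum.inr g}, singleton_subset_iff.2 hg, countable_singleton _⟩, ?_⟩
      exact subset_cl f _ rfl
  · intro x hx y hy hxy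
    obtain ⟨C1, hC1, hC1c, hx1⟩ := hct _ x hx
    obtain ⟨C2, hC2, hC2c, hy1⟩ := hct _ y hy
    let A : ι := ⟨Sum.inl '' (C1 ∪ C2), by
      rintro _ ⟨c, hc, rfl⟩
      rcases hc with hc | hc
      · exact hC1 hc
      · exact hC2 hc, (hC1c.union hC2c).image _⟩
    have hsub : C1 ∪ C2 ⊆ Bs (cl f A.1) := fun c hc => subset_cl f _ ⟨c, hc, rfl⟩
    apply (hcl A).2 x (closure_mono (subset_union_left.trans hsub) hx1) y
      (closure_mono (subset_union_right.trans hsub) hy1)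
    intro g hg
    exact hxy g (cl_subset f hS A.2.1 hg)

end

end Pool.Agent.Q212.NR
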