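import Mathlib
import Pool.Agent.Q212.NR.Refl

set_option autoImplicit false

open Set Topology Cardinal

namespace Pool.Agent.Q212.NR

open Pool.Agent.Helper639.Cor (CorsonOn PCon SepOn Splits CTight Dn Good lemA trim_sep Dn_iUnion
  chain_lemma chain_exists CorsonOn.of_subtype)

theorem mk_Om1 : #Om1 = ℵ₁ := by rw [Cardinal.mk_toType, Cardinal.card_ord]

/-- under Axiom R club many countable sets are good -/
theorem exists_club_good {X : Type} [TopologicalSpace X] [CompactSpace X] [T2Space X] [Nonempty X]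
    (hR : AxiomR) (H : ∀ A : Set X, #A ≤ ℵ₁ → CorsonOn (closure A)) :
    ∃ f : List (X ⊕ C(X, ℝ)) → X ⊕ C(X, ℝ),
      ∀ S : Set (X ⊕ C(X, ℝ)), S.Countable → ClosedUnder f S → Good (Bs S) (Ms S) := by
  classical
  by_contra hcon
  push Not at hcon
  have hct : CTight X := ctight_of_small H
  have h01 : ℵ₀ ≤ (ℵ₁ : Cardinal.{0}) := Cardinal.aleph0_le_aleph 1
  have hstat : StationaryIn {S : Set (X ⊕ C(X, ℝ)) | ¬ Good (Bs S) (Ms S)} univ := by
    intro f _
    obtain ⟨S, hS, hSf, hSg⟩ := hcon f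
    exact ⟨S, hSg, subset_univ _, hS, hSf⟩
  obtain ⟨J1, hJ1⟩ : ∃ J1 : Set (X ⊕ C(X, ℝ)), #J1 = ℵ₁ := by
    apply Cardinal.le_mk_iff_exists_set.1
    have h1 : (ℵ₁ : Cardinal.{0}) ≤ #ℝ := by
      rw [Cardinal.mk_real]
      exact Cardinal.aleph_one_le_continuum
    refine h1.trans (Cardinal.mk_le_of_injective
      (f := fun r : ℝ => (Sum.inr (ContinuousMap.const X r) : X ⊕ C(X, ℝ))) ?_)
    intro r s hrs
    have h2 := Sum.inr_injective hrs
    have h3 := DFunLike.congr_fun h2 (Classical.arbitrary X)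
    simpa using h3
  obtain ⟨I, hI, hIst⟩ := hR (X ⊕ C(X, ℝ)) _
    {I | #I = ℵ₁ ∧ Good (Bs I) (Ms I)} hstat (fun I hI => hI.1) (by
      intro J hJ
      have hJ' : #((J ∪ J1 : Set (X ⊕ C(X, ℝ)))) ≤ ℵ₁ :=
        (Cardinal.mk_union_le _ _).trans (Cardinal.add_le_of_le h01 hJ hJ1.le)
      obtain ⟨B, M, hB, hM, hB0, hM0, hg⟩ := lemG2 hct ℵ₁ le_rfl H (Bs (J ∪ J1))
        ((mk_Bs _).trans hJ') (Ms (J ∪ J1)) ((mk_Ms _).trans hJ')
      have hsub : J ∪ J1 ⊆ Sum.inl '' B ∪ Sum.inr '' M := by
        rintro (x | g) h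
        · exact Or.inl ⟨x, hB0 h, rfl⟩
        · exact Or.inr ⟨g, hM0 h, rfl⟩
      refine ⟨Sum.inl '' B ∪ Sum.inr '' M, ⟨le_antisymm ?_ ?_, ?_⟩,
        subset_union_left.trans hsub⟩
      · exact (Cardinal.mk_union_le _ _).trans (Cardinal.add_le_of_le h01
          (Cardinal.mk_image_le.trans hB) (Cardinal.mk_image_le.trans hM))
      · rw [← hJ1]
        exact Cardinal.mk_le_mk_of_subset (subset_union_right.trans hsub)
      · have e1 : Bs (Sum.inl '' B ∪ Sum.inr '' M : Set (X ⊕ C(X, ℝ))) = B := by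
          ext x
          simp [Bs]
        have e2 : Ms (Sum.inl '' B ∪ Sum.inr '' M : Set (X ⊕ C(X, ℝ))) = M := by
          ext x
          simp [Ms]
        rw [e1, e2]
        exact hg) (by
      intro C hC hCT
      refine ⟨le_antisymm ?_ ?_, ?_, ?_⟩
      · refine (Cardinal.mk_iUnion_le _).trans ?_
        calc #Om1 * (⨆ a, #(C a)) ≤ ℵ₁ * ℵ₁ :=
              mul_le_mul' mk_Om1.le (ciSup_le' fun a => (hCT a).1.le)
          _ = ℵ₁ := Cardinal.mul_eq_self h01
      · rw [← (hCT (Classical.arbitrary Om1)).1]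
        exact Cardinal.mk_le_mk_of_subset (subset_iUnion C _)
      · have hDn : Dn univ (⋃ a, Bs (C a)) (⋃ a, Ms (C a)) := by
          apply Dn_iUnion
          · intro a b
            exact ⟨max a b, Bs_mono (hC (le_max_left _ _)), Bs_mono (hC (le_max_right _ _)),
              Ms_mono (hC (le_max_left _ _)), Ms_mono (hC (le_max_right _ _))⟩
          · intro a
            exact (hCT a).2.1
        intro x hx
        obtain ⟨x', hx', h1⟩ := hDn x hx
        refine ⟨x', closure_mono ?_ hx', fun g hg => h1 g ?_⟩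
        · exact iUnion_subset fun a => Bs_mono (subset_iUnion C a)
        · obtain ⟨a, ha⟩ := mem_iUnion.1 (show Sum.inr g ∈ ⋃ a, C a from hg)
          exact mem_iUnion.2 ⟨a, ha⟩
      · intro x hx y hy hxy
        obtain ⟨C1, hC1, hC1c, hx1⟩ := hct _ x hx
        obtain ⟨C2, hC2, hC2c, hy1⟩ := hct _ y hy
        have hj : ∀ c : X, ∃ a : Om1, c ∈ C1 ∪ C2 → Sum.inl c ∈ C a := by
          intro c
          by_cases hc : c ∈ C1 ∪ C2
          · obtain ⟨a, ha⟩ := mem_iUnion.1
              (show Sum.inl c ∈ ⋃ a, C a from union_subset hC1 hC2 hc)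
            exact ⟨a, fun _ => ha⟩
          · exact ⟨Classical.arbitrary _, fun h => absurd h hc⟩
        choose j hj using hj
        obtain ⟨η, hη⟩ := bounded_of_countable (hC1c.union hC2c) j
        have hsub : C1 ∪ C2 ⊆ Bs (C η) := fun c hc => hC (hη c hc).le (hj c hc)
        apply (hCT η).2.2 x (closure_mono (subset_union_left.trans hsub) hx1) y
          (closure_mono (subset_union_right.trans hsub) hy1)
        intro g hg
        exact hxy g (subset_iUnion C η hg))
  have hIne : I.Nonempty := by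
    rw [Set.nonempty_iff_ne_empty]
    rintro rfl
    have h1 := hI.1
    rw [Cardinal.mk_eq_zero] at h1
    exact (Cardinal.aleph_pos 1).ne h1
  obtain ⟨f, hfI, hf⟩ := local_good hIne hI.2 (H _ ((mk_Bs I).trans hI.1.le))
  obtain ⟨S, hSbad, hSI, _, hSf⟩ := hIst f hfI
  exact hSbad (hf S hSI hSf)

/-- closed subspaces inherit the hypothesis -/
theorem corsonOn_restrict {X : Type} [TopologicalSpace X] {Z : Set X} {A : Set Z}
    (h : CorsonOn (closure (Subtype.val '' A))) : CorsonOn (closure A) := by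
  obtain ⟨F, hF, hsep⟩ := h
  have hmem : ∀ z ∈ closure A, z.1 ∈ closure (Subtype.val '' A) := fun z hz => closure_subtype.1 hz
  refine ⟨(fun f : C(X, ℝ) => f.restrict Z) '' F, ?_, ?_⟩
  · intro z hz
    have : {f | f ∈ (fun f : C(X, ℝ) => f.restrict Z) '' F ∧ f z ≠ 0} ⊆
        (fun f : C(X, ℝ) => f.restrict Z) '' {f | f ∈ F ∧ f z.1 ≠ 0} := by
      rintro _ ⟨⟨f, hf, rfl⟩, hne⟩
      exact ⟨f, ⟨hf, hne⟩, rfl⟩
    exact ((hF z.1 (hmem z hz)).image _).mono this
  · intro x hx y hy hxy
    exact Subtype.ext (hsep x.1 (hmem x hx) y.1 (hmem y hy) fun f hf => hxy _ ⟨f, hf, rfl⟩)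

theorem corson_main (hR : AxiomR) (kap : Cardinal.{0}) : ∀ (X : Type) [TopologicalSpace X]
    [CompactSpace X] [T2Space X], (∀ A : Set X, #A ≤ ℵ₁ → CorsonOn (closure A)) →
    ∀ D : Set X, Dense D → #D = kap → CorsonOn (univ : Set X) := by
  induction kap using WellFoundedLT.induction with
  | ind kap ih =>
    intro X _ _ _ H D hD hDk
    rcases le_or_gt kap ℵ₁ with hk | hk
    · have := H D (hDk.le.trans hk)
      rwa [hD.closure_eq] at this
    have h0k : ℵ₀ < kap := (Cardinal.aleph0_lt_aleph_one).trans hk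
    have hcor : ∀ B : Set X, #B < kap → CorsonOn (closure B) := by
      intro B hB
      apply CorsonOn.of_subtype isClosed_closure
      have : CompactSpace (closure B) := isCompact_iff_compactSpace.1 isClosed_closure.isCompact
      let DY : Set (closure B) := {y | y.1 ∈ B}
      have hDY : Dense DY := by
        intro y
        rw [closure_subtype]
        have : ((↑) : closure B → X) '' DY = B := by
          ext x
          constructor
          · rintro ⟨y, hy, rfl⟩; exact hy
          · intro hx; exact ⟨⟨x, subset_closure hx⟩, hx, rfl⟩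
        rw [this]; exact y.2
      have hc : #DY ≤ #B := by
        refine Cardinal.mk_le_of_injective (f := fun y : DY => (⟨y.1.1, y.2⟩ : B)) ?_
        intro y z h
        have h' : y.1.1 = z.1.1 := congrArg (fun t : B => t.1) h
        exact Subtype.ext (Subtype.ext h')
      exact ih #DY (hc.trans_lt hB) (closure B) (fun A hA => corsonOn_restrict
        (H _ (Cardinal.mk_image_le.trans hA))) DY hDY rfl
    have hXne : Nonempty X := by
      have h1 : #D ≠ 0 := by
        rw [hDk]
        exact (Cardinal.aleph0_pos.trans h0k).ne'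
      obtain ⟨⟨x, _⟩⟩ := Cardinal.mk_ne_zero_iff.1 h1
      exact ⟨x⟩
    have hct : CTight X := ctight_of_small H
    obtain ⟨f, hf⟩ := exists_club_good hR H
    have hgood := good_of_countable hct f hf
    let S0 : Set (X ⊕ C(X, ℝ)) := cl f (Sum.inl '' D)
    have hS0 : #S0 ≤ kap := (mk_cl f _).trans (max_le (Cardinal.mk_image_le.trans hDk.le) h0k.le)
    have hDS : D ⊆ Bs S0 := fun x hx => subset_cl f _ ⟨x, hx, rfl⟩
    obtain ⟨ι, _, _, hιne, S, hSm, hSP, hSc, hSl, hSD⟩ := chain_exists (T := X ⊕ C(X, ℝ)) ℵ₀ le_rfl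
      h0k (ClosedUnder f) (by
        intro 𝒮 hne hch hall l hl
        have h1 : ∃ S ∈ 𝒮, ∀ a ∈ l, a ∈ S := by
          induction l with
          | nil =>
            obtain ⟨S, hS⟩ := hne
            exact ⟨S, hS, by simp⟩
          | cons b l ih =>
            obtain ⟨S, hS, h2⟩ := ih fun a ha => hl a (List.mem_cons_of_mem _ ha)
            obtain ⟨S', hS', hb⟩ := hl b (List.mem_cons_self ..)
            rcases hch.total hS hS' with h | h
            · refine ⟨S', hS', fun a ha => ?_⟩
              rcases List.mem_cons.1 ha with rfl | ha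
              · exact hb
              · exact h (h2 a ha)
            · refine ⟨S, hS, fun a ha => ?_⟩
              rcases List.mem_cons.1 ha with rfl | ha
              · exact h hb
              · exact h2 a ha
        obtain ⟨S, hS, h2⟩ := h1
        exact ⟨S, hS, hall S hS l h2⟩) (by
        intro S _
        exact ⟨cl f S, subset_cl f S, closed_cl f S, mk_cl f S⟩) S0 hS0
    refine chain_lemma hct (fun i => Bs (S i)) (fun i => Ms (S i))
      (fun i j h => Bs_mono (hSm h)) (fun i j h => Ms_mono (hSm h))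
      (fun i => hgood _ (hSP i)) ?_ ?_ ?_ ?_ ?_
    · intro i hi b hb
      obtain ⟨j, hj, h⟩ := hSl i hi _ hb
      exact ⟨j, hj, h⟩
    · intro i hi g hg
      obtain ⟨j, hj, h⟩ := hSl i hi _ hg
      exact ⟨j, hj, h⟩
    · refine hD.mono ?_
      intro x hx
      obtain ⟨i, hi⟩ := mem_iUnion.1 (hSD (hDS hx))
      exact mem_iUnion.2 ⟨i, hi⟩
    · intro x _ y _ hxy
      have hcl : closure (Bs S0) = Set.univ := (hD.mono hDS).closure_eq
      have h3 := (hgood S0 (closed_cl f _)).2
      rw [hcl] at h3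
      apply h3 x (mem_univ _) y (mem_univ _)
      intro g hg
      obtain ⟨i, hi⟩ := mem_iUnion.1 (hSD hg)
      exact hxy g (mem_iUnion.2 ⟨i, hi⟩)
    · intro i
      exact hcor _ ((mk_Bs _).trans_lt (hSc i))

end Pool.Agent.Q212.NR
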