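import Mathlib
import Pool.Agent.Helper639.CorI
import Pool.Agent.Q212.NR.Refl2
import Pool.Agent.Q212.NR.Final

set_option autoImplicit false

open Set Topology Cardinal

namespace Pool.Agent.Q212.NR

open Pool.Agent.Helper639.Cor (CorsonOn PCon SepOn CorsonOn.of_subtype embedding_of_corson)

theorem IsCorson.corsonOn {X : Type} [TopologicalSpace X] [CompactSpace X] [T2Space X] {Z : Set X}
    (hZ : IsClosed Z) (h : IsCorson Z) : CorsonOn Z := by
  obtain ⟨Γ, e, he, hc⟩ := h
  apply CorsonOn.of_subtype hZ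
  let F : Γ → C(Z, ℝ) := fun γ => ⟨fun y => e y γ, (continuous_apply γ).comp he.continuous⟩
  refine ⟨range F, ?_, ?_⟩
  · intro x _
    refine Set.Countable.mono ?_ ((hc x).image F)
    rintro _ ⟨⟨γ, rfl⟩, hne⟩
    exact ⟨γ, hne, rfl⟩
  · intro x _ y _ hxy
    apply he.injective
    funext γ
    exact hxy (F γ) ⟨γ, rfl⟩

theorem corson_of_small (hR : AxiomR) (X : Type) [TopologicalSpace X] [CompactSpace X] [T2Space X]
    (h : ∀ A : Set X, #A ≤ ℵ₁ → IsCorson (closure A)) : IsCorson X :=
  embedding_of_corson (corson_main hR _ X (fun A hA => (h A hA).corsonOn isClosed_closure)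
    univ dense_univ rfl)

end Pool.Agent.Q212.NR
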